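import Mathlib

/-!
# Small values of positive definite integral ternary forms (Hermite's bound)
-/

set_option autoImplicit false

open Matrix

namespace Pool.Agent.H132.Ternary

/-- `G'` is the Gram matrix of `G` in another basis. -/
def Equi (G G' : Matrix (Fin 3) (Fin 3) ℤ) : Prop :=
  ∃ X : Matrix (Fin 3) (Fin 3) ℤ, X.det = 1 ∧ G' = Xᵀ * G * X

lemma Equi.trans {G G' : Matrix (Fin 3) (Fin 3) ℤ} (h : Equi G G')
    {E : Matrix (Fin 3) (Fin 3) ℤ} (hE : E.det = 1) : Equi G (Eᵀ * G' * E) := by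
  obtain ⟨X, hX, rfl⟩ := h
  refine ⟨X * E, by rw [Matrix.det_mul, hX, hE, one_mul], ?_⟩
  rw [Matrix.transpose_mul]
  simp only [Matrix.mul_assoc]

lemma Equi.det_eq {G G' : Matrix (Fin 3) (Fin 3) ℤ} (h : Equi G G') : G'.det = G.det := by
  obtain ⟨X, hX, rfl⟩ := h
  rw [Matrix.det_mul, Matrix.det_mul, Matrix.det_transpose, hX]; ring

lemma Equi.symm' {G G' : Matrix (Fin 3) (Fin 3) ℤ} (h : Equi G G') (hG : Gᵀ = G) : G'ᵀ = G' := by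
  obtain ⟨X, hX, rfl⟩ := h
  rw [Matrix.transpose_mul, Matrix.transpose_mul, Matrix.transpose_transpose, hG,
    Matrix.mul_assoc]

/-- Value of the form. -/
def q (G : Matrix (Fin 3) (Fin 3) ℤ) (u v w : ℤ) : ℤ :=
  G 0 0 * u ^ 2 + G 1 1 * v ^ 2 + G 2 2 * w ^ 2 + 2 * G 0 1 * u * v + 2 * G 0 2 * u * w +
    2 * G 1 2 * v * w

lemma Equi.entry {G G' : Matrix (Fin 3) (Fin 3) ℤ} (h : Equi G G') (hG : Gᵀ = G) :
    ∃ u v w : ℤ, (u ≠ 0 ∨ v ≠ 0 ∨ w ≠ 0) ∧ G' 0 0 = q G u v w := by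
  obtain ⟨X, hX, rfl⟩ := h
  refine ⟨X 0 0, X 1 0, X 2 0, ?_, ?_⟩
  · by_contra hcon
    push Not at hcon
    obtain ⟨h1, h2, h3⟩ := hcon
    rw [Matrix.det_fin_three, h1, h2, h3] at hX
    norm_num at hX
  · have h10 : G 1 0 = G 0 1 := by
      have := congrFun (congrFun hG 0) 1; simpa using this
    have h20 : G 2 0 = G 0 2 := by
      have := congrFun (congrFun hG 0) 2; simpa using this
    have h21 : G 2 1 = G 1 2 := by
      have := congrFun (congrFun hG 1) 2; simpa using this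
    simp only [Matrix.mul_apply, Fin.sum_univ_three, Matrix.transpose_apply, q, h10, h20, h21]
    ring

lemma exists_round (h a : ℤ) (ha : 0 < a) : ∃ j : ℤ, 4 * (h + j * a) ^ 2 ≤ a ^ 2 := by
  refine ⟨-((2 * h + a) / (2 * a)), ?_⟩
  have h1 := Int.emod_add_mul_ediv (2 * h + a) (2 * a)
  have h2 := Int.emod_nonneg (2 * h + a) (by omega : (2 * a) ≠ 0)
  have h3 := Int.emod_lt_of_pos (2 * h + a) (by omega : 0 < 2 * a)
  set r := (2 * h + a) % (2 * a)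
  set k := (2 * h + a) / (2 * a)
  have h4 : 2 * (h + -k * a) = r - a := by linarith
  have h5 : 4 * (h + -k * a) ^ 2 = (r - a) ^ 2 := by rw [← h4]; ring
  rw [h5]
  have h6 : -a ≤ r - a := by linarith
  have h7 : r - a ≤ a := by linarith
  nlinarith

/-- Hermite's bound for ternary forms. -/
theorem hermite (G : Matrix (Fin 3) (Fin 3) ℤ) (hG : Gᵀ = G)
    (hpos : ∀ u v w : ℤ, (u ≠ 0 ∨ v ≠ 0 ∨ w ≠ 0) → 0 < q G u v w) :
    ∃ u v w : ℤ, (u ≠ 0 ∨ v ≠ 0 ∨ w ≠ 0) ∧ 27 * (q G u v w) ^ 3 ≤ 64 * G.det := by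
  classical
  -- minimise the first entry
  have hpos' : ∀ G', Equi G G' → 0 < G' 0 0 := by
    intro G' h
    obtain ⟨u, v, w, h1, h2⟩ := h.entry hG
    rw [h2]; exact hpos u v w h1
  have hself : Equi G G := ⟨1, by simp, by simp⟩
  obtain ⟨a, ⟨⟩, hamin⟩ : ∃ a : ℕ, (∃ G', Equi G G' ∧ G' 0 0 = a) ∧
      ∀ b : ℕ, (∃ G', Equi G G' ∧ G' 0 0 = b) → a ≤ b := by
    have hex : ∃ a : ℕ, ∃ G', Equi G G' ∧ G' 0 0 = a :=
      ⟨(G 0 0).toNat, G, hself, by rw [Int.toNat_of_nonneg (hpos' G hself).le]⟩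
    exact ⟨Nat.find hex, Nat.find_spec hex, fun b hb => Nat.find_min' hex hb⟩
  rename_i G1 hG1
  have hmin : ∀ G', Equi G G' → (a : ℤ) ≤ G' 0 0 := by
    intro G' h
    have h1 := hamin (G' 0 0).toNat ⟨G', h, by rw [Int.toNat_of_nonneg (hpos' G' h).le]⟩
    have h2 := hpos' G' h
    omega
  have ha0 : (0 : ℤ) < a := by rw [← hG1.2]; exact hpos' _ hG1.1
  -- entries of a transformed matrix
  have hswap : ∀ (G' : Matrix (Fin 3) (Fin 3) ℤ) (j : ℤ), Equi G G' →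
      ∃ G'', Equi G G'' ∧ G'' 0 0 = G' 1 1 + 2 * j * G' 0 1 + j ^ 2 * G' 0 0 := by
    intro G' j h
    refine ⟨_, h.trans (E := !![j, -1, 0; 1, 0, 0; 0, 0, 1]) (by simp [Matrix.det_fin_three]), ?_⟩
    have h10 : G' 1 0 = G' 0 1 := by
      have := congrFun (congrFun (h.symm' hG) 0) 1; simpa using this
    simp [Matrix.mul_apply, Fin.sum_univ_three, h10]
    ring
  have hQ : ∀ G', Equi G G' → G' 0 0 = a → 3 * (a : ℤ) ^ 2 ≤ 4 * (G' 0 0 * G' 1 1 - G' 0 1 ^ 2) := by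
    intro G' h haa
    obtain ⟨j, hj⟩ := exists_round (G' 0 1) a ha0
    obtain ⟨G'', h1, h2⟩ := hswap G' j h
    have h3 := hmin G'' h1
    rw [h2, haa] at h3
    rw [haa]
    have h4 : (a : ℤ) * a ≤ a * (G' 1 1 + 2 * j * G' 0 1 + j ^ 2 * a) :=
      mul_le_mul_of_nonneg_left h3 ha0.le
    nlinarith
  obtain ⟨Δ, ⟨G2, hG2, hG2a, hG2Δ⟩, hΔmin⟩ : ∃ Δ : ℕ,
      (∃ G', Equi G G' ∧ G' 0 0 = a ∧ G' 0 0 * G' 1 1 - G' 0 1 ^ 2 = Δ) ∧
      ∀ b : ℕ, (∃ G', Equi G G' ∧ G' 0 0 = a ∧ G' 0 0 * G' 1 1 - G' 0 1 ^ 2 = b) → Δ ≤ b := by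
    have hex : ∃ Δ : ℕ, ∃ G', Equi G G' ∧ G' 0 0 = a ∧ G' 0 0 * G' 1 1 - G' 0 1 ^ 2 = Δ := by
      refine ⟨(G1 0 0 * G1 1 1 - G1 0 1 ^ 2).toNat, G1, hG1.1, hG1.2, ?_⟩
      rw [Int.toNat_of_nonneg]
      have := hQ G1 hG1.1 hG1.2
      nlinarith [sq_nonneg (a : ℤ)]
    exact ⟨Nat.find hex, Nat.find_spec hex, fun b hb => Nat.find_min' hex hb⟩
  have hΔ : 3 * (a : ℤ) ^ 2 ≤ 4 * Δ := by
    have := hQ G2 hG2 hG2a
    rw [hG2Δ] at this; exact this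
  have hΔ0 : (0 : ℤ) < Δ := by nlinarith [sq_nonneg (a : ℤ), mul_pos ha0 ha0]
  have hs10 : G2 1 0 = G2 0 1 := by
    have := congrFun (congrFun (hG2.symm' hG) 0) 1; simpa using this
  have hs20 : G2 2 0 = G2 0 2 := by
    have := congrFun (congrFun (hG2.symm' hG) 0) 2; simpa using this
  have hs21 : G2 2 1 = G2 1 2 := by
    have := congrFun (congrFun (hG2.symm' hG) 1) 2; simpa using this
  -- the projected form
  set F22 := G2 0 0 * G2 1 1 - G2 0 1 ^ 2 with hF22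
  set F33 := G2 0 0 * G2 2 2 - G2 0 2 ^ 2 with hF33
  set F23 := G2 0 0 * G2 1 2 - G2 0 1 * G2 0 2 with hF23
  have hdet : F22 * F33 - F23 ^ 2 = a * G.det := by
    rw [← hG2.det_eq, Matrix.det_fin_three, hs10, hs20, hs21, ← hG2a, hF22, hF33, hF23]
    ring
  obtain ⟨j, hj⟩ := exists_round F23 Δ hΔ0
  have h5 : (Δ : ℤ) ≤ F33 + 2 * j * F23 + j ^ 2 * F22 := by
    have hE : (!![1, 0, 0; 0, j, -1; 0, 1, 0] : Matrix (Fin 3) (Fin 3) ℤ).det = 1 := by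
      simp [Matrix.det_fin_three]
    have h6 := hG2.trans hE
    set G3 := (!![1, 0, 0; 0, j, -1; 0, 1, 0] : Matrix (Fin 3) (Fin 3) ℤ)ᵀ * G2 *
      !![1, 0, 0; 0, j, -1; 0, 1, 0] with hG3
    have e00 : G3 0 0 = a := by
      rw [hG3, ← hG2a]; simp [Matrix.mul_apply, Fin.sum_univ_three]
    have e11 : G3 1 1 = G2 2 2 + 2 * j * G2 1 2 + j ^ 2 * G2 1 1 := by
      rw [hG3]; simp [Matrix.mul_apply, Fin.sum_univ_three, hs21]; ring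
    have e01 : G3 0 1 = G2 0 2 + j * G2 0 1 := by
      rw [hG3]; simp [Matrix.mul_apply, Fin.sum_univ_three]; ring
    have h7 : G3 0 0 * G3 1 1 - G3 0 1 ^ 2 = F33 + 2 * j * F23 + j ^ 2 * F22 := by
      rw [e00, e11, e01, hF22, hF33, hF23, hG2a]; ring
    have h8 := hQ G3 h6 e00
    have h9 : 0 ≤ G3 0 0 * G3 1 1 - G3 0 1 ^ 2 := by nlinarith [sq_nonneg (a : ℤ)]
    have h10 := hΔmin (G3 0 0 * G3 1 1 - G3 0 1 ^ 2).toNat
      ⟨G3, h6, e00, by rw [Int.toNat_of_nonneg h9]⟩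
    rw [← h7]; omega
  have h6 : 3 * (Δ : ℤ) ^ 2 ≤ 4 * (a * G.det) := by
    rw [← hdet, hG2Δ]
    rw [hG2Δ] at h5
    have h4 : (Δ : ℤ) * Δ ≤ Δ * (F33 + 2 * j * F23 + j ^ 2 * Δ) :=
      mul_le_mul_of_nonneg_left h5 hΔ0.le
    nlinarith
  obtain ⟨u, v, w, h7, h8⟩ := hG1.1.entry hG
  refine ⟨u, v, w, h7, ?_⟩
  rw [← h8, hG1.2]
  -- 3 * 9 a^4 <= 3 * 16 Δ^2 <= 64 a det
  have h9 : 9 * (a : ℤ) ^ 4 ≤ 16 * Δ ^ 2 := by
    have : (3 * (a : ℤ) ^ 2) ^ 2 ≤ (4 * Δ) ^ 2 := pow_le_pow_left₀ (by positivity) hΔ 2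
    nlinarith
  have h10 : (a : ℤ) * (27 * a ^ 3) ≤ a * (64 * G.det) := by nlinarith
  exact le_of_mul_le_mul_left h10 ha0

end Pool.Agent.H132.Ternary
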