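import Mathlib
import Pool.Agent.H132.Ternary

/-!
# Integral points of `Y ^ 2 = 4 m ^ 3 - 4 m + 1`

We show that an integral point with `m ≥ 1` has `m ≤ 6`, by an explicit `2`-descent in
`ℤ[φ]`, `φ ^ 3 = 4 φ - 2`.
-/

set_option autoImplicit false

namespace Pool.Agent.H132.CurveA

/-- Elements `a + b φ + c φ ^ 2`. -/
@[ext] structure T3 where
  a : ℤ
  b : ℤ
  c : ℤ

/-- Multiplication with `φ ^ 3 = 4 φ - 2`. -/
def mul (x y : T3) : T3 where
  a := x.a * y.a - 2 * (x.b * y.c + x.c * y.b)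
  b := x.a * y.b + x.b * y.a + 4 * (x.b * y.c + x.c * y.b) - 2 * (x.c * y.c)
  c := x.a * y.c + x.b * y.b + x.c * y.a + 4 * (x.c * y.c)

/-- Trace. -/
def tr (x : T3) : ℤ := 3 * x.a + 8 * x.c

/-- Adjugate. -/
def adj (x : T3) : T3 where
  a := (x.a + 4 * x.c) ^ 2 - x.b * (4 * x.b - 2 * x.c)
  b := -(x.a * x.b) - 2 * x.c ^ 2
  c := x.b ^ 2 - x.c * (x.a + 4 * x.c)

/-- Norm. -/
def nm (x : T3) : ℤ :=
  x.a * ((x.a + 4 * x.c) ^ 2 - x.b * (4 * x.b - 2 * x.c)) -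
    x.b * (-2 * x.c * (x.a + 4 * x.c) + 2 * x.b ^ 2) +
    x.c * (-2 * x.c * (4 * x.b - 2 * x.c) + 2 * x.b * (x.a + 4 * x.c))

lemma mul_adj (x : T3) : mul x (adj x) = ⟨nm x, 0, 0⟩ := by
  ext <;> simp only [mul, adj, nm] <;> ring

lemma adj_mul (x y : T3) : adj (mul x y) = mul (adj x) (adj y) := by
  ext <;> simp only [mul, adj] <;> ring

lemma nm_mul (x y : T3) : nm (mul x y) = nm x * nm y := by
  simp only [mul, nm]; ring

lemma tr_adj (x : T3) : 2 * tr (adj x) = tr x ^ 2 - tr (mul x x) := by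
  simp only [tr, adj, mul]; ring

lemma mul_mul_adj (x y : T3) : mul x (mul (adj x) y) = ⟨nm x * y.a, nm x * y.b, nm x * y.c⟩ := by
  ext <;> simp only [mul, adj, nm] <;> ring


/-- The totally positive element attached to an integral point. -/
def om (m : ℤ) : T3 := ⟨1, -2, m⟩

lemma nm_om (m : ℤ) : nm (om m) = 4 * m ^ 3 - 4 * m + 1 := by
  simp only [nm, om]; ring

/-- Elements of the ideal whose square is `(om m)`. -/
def be (m Y u v w : ℤ) : T3 := ⟨u * Y - 2 * m * v, v - 2 * m * w, w⟩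

/-- The quotient `be ^ 2 / om`. -/
def ka (m Y u v w : ℤ) : T3 :=
  ⟨(16 * m ^ 2 + 4 * m - 15) * u ^ 2 - 16 * u * v * Y - 8 * u * w * Y + (16 * m - 4) * v ^ 2 +
      2 * (8 * m - 2) * v * w + 4 * m * w ^ 2,
    (2 - 2 * m ^ 2) * u ^ 2 + 2 * u * v * Y - 2 * m * v ^ 2 - 2 * w ^ 2,
    (4 - m - 4 * m ^ 2) * u ^ 2 + 4 * u * v * Y + 2 * u * w * Y + (1 - 4 * m) * v ^ 2 -
      4 * m * v * w⟩

lemma om_ka {m Y : ℤ} (hY : Y ^ 2 = 4 * m ^ 3 - 4 * m + 1) (u v w : ℤ) :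
    mul (om m) (ka m Y u v w) = mul (be m Y u v w) (be m Y u v w) := by
  ext <;> simp only [mul, om, ka, be]
  · linear_combination (-u ^ 2) * hY
  · ring
  · ring

lemma om_form {m Y : ℤ} (hm : 1 ≤ m) (hY : Y ^ 2 = 4 * m ^ 3 - 4 * m + 1) (x : T3) :
    0 ≤ tr (mul (om m) (mul x x)) := by
  obtain ⟨a, b, c⟩ := x
  have h1 : (8 * m + 3) * (220 * m ^ 2 + 64 * m - 196) * tr (mul (om m) (mul ⟨a, b, c⟩ ⟨a, b, c⟩)) =
      (220 * m ^ 2 + 64 * m - 196) *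
        ((8 * m + 3) * a + (-6 * m - 16) * b + (32 * m + 20) * c) ^ 2 +
      ((220 * m ^ 2 + 64 * m - 196) * b + (-128 * m ^ 2 - 48 * m + 110) * c) ^ 2 +
      (8 * m + 3) * 148 * Y ^ 2 * c ^ 2 := by
    rw [hY]
    simp only [tr, mul, om]; ring
  have h2 : 0 < (8 * m + 3) * (220 * m ^ 2 + 64 * m - 196) := by
    have : 0 < 220 * m ^ 2 + 64 * m - 196 := by nlinarith
    positivity
  have h3 : 0 ≤ (8 * m + 3) * (220 * m ^ 2 + 64 * m - 196) *
      tr (mul (om m) (mul ⟨a, b, c⟩ ⟨a, b, c⟩)) := by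
    rw [h1]
    have : 0 < 220 * m ^ 2 + 64 * m - 196 := by nlinarith
    positivity
  exact nonneg_of_mul_nonneg_right h3 h2

/-- Gram matrix. -/
def gr (m Y : ℤ) : Matrix (Fin 3) (Fin 3) ℤ :=
  !![16 * m ^ 2 + 4 * m - 13, -8 * Y, -4 * Y; -8 * Y, 16 * m - 4, 8 * m - 6;
    -4 * Y, 8 * m - 6, 12 * m]

lemma gr_q (m Y u v w : ℤ) : Ternary.q (gr m Y) u v w = tr (ka m Y u v w) := by
  simp [Ternary.q, gr, tr, ka]; ring

lemma gr_det {m Y : ℤ} (hY : Y ^ 2 = 4 * m ^ 3 - 4 * m + 1) : (gr m Y).det = 148 := by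
  rw [Matrix.det_fin_three]
  simp [gr]
  linear_combination (-(512 * m + 320)) * hY

lemma gr_pos {m Y : ℤ} (hm : 1 ≤ m) (hY : Y ^ 2 = 4 * m ^ 3 - 4 * m + 1) (u v w : ℤ)
    (h : u ≠ 0 ∨ v ≠ 0 ∨ w ≠ 0) : 0 < Ternary.q (gr m Y) u v w := by
  have h1 : 12 * m * (128 * m ^ 2 + 48 * m - 36) * Ternary.q (gr m Y) u v w =
      (128 * m ^ 2 + 48 * m - 36) * (12 * m * w + (8 * m - 6) * v - 4 * Y * u) ^ 2 +
      ((128 * m ^ 2 + 48 * m - 36) * v + (-64 * m * Y - 24 * Y) * u) ^ 2 +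
      1776 * m * u ^ 2 := by
    simp [Ternary.q, gr]
    linear_combination (-(6144 * m ^ 2 + 3840 * m) * u ^ 2) * hY
  have hA : 0 < 128 * m ^ 2 + 48 * m - 36 := by nlinarith
  by_contra hcon
  push Not at hcon
  have h2 : 12 * m * (128 * m ^ 2 + 48 * m - 36) * Ternary.q (gr m Y) u v w ≤ 0 :=
    mul_nonpos_of_nonneg_of_nonpos (by positivity) hcon
  rw [h1] at h2
  have e1 : 0 ≤ (128 * m ^ 2 + 48 * m - 36) * (12 * m * w + (8 * m - 6) * v - 4 * Y * u) ^ 2 := by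
    positivity
  have e2 : 0 ≤ ((128 * m ^ 2 + 48 * m - 36) * v + (-64 * m * Y - 24 * Y) * u) ^ 2 := by positivity
  have e3 : 0 ≤ 1776 * m * u ^ 2 := by positivity
  have e3' : 1776 * m * u ^ 2 = 0 := by linarith
  have hu : u = 0 := by
    rcases mul_eq_zero.1 e3' with h | h
    · omega
    · exact pow_eq_zero_iff (by norm_num) |>.1 h
  subst hu
  have e2' : ((128 * m ^ 2 + 48 * m - 36) * v + (-64 * m * Y - 24 * Y) * 0) ^ 2 = 0 := by linarith
  have hv : v = 0 := by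
    have := pow_eq_zero_iff (by norm_num) |>.1 e2'
    rw [mul_zero, add_zero] at this
    rcases mul_eq_zero.1 this with h | h
    · omega
    · exact h
  subst hv
  have e1' : (128 * m ^ 2 + 48 * m - 36) *
      (12 * m * w + (8 * m - 6) * 0 - 4 * Y * 0) ^ 2 = 0 := by linarith
  have hw : w = 0 := by
    rcases mul_eq_zero.1 e1' with h | h
    · omega
    · have := pow_eq_zero_iff (by norm_num) |>.1 h
      rw [mul_zero, mul_zero, add_zero, sub_zero] at this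
      rcases mul_eq_zero.1 this with h | h
      · omega
      · exact h
  subst hw
  rcases h with h | h | h <;> exact h rfl

/-- If `om m` is a square then `m ≤ 6`. -/
lemma sq_case {m : ℤ} (x : T3) (h : mul x x = om m) : m ≤ 6 := by
  obtain ⟨a, b, c⟩ := x
  have h1 := congrArg T3.a h
  have h2 := congrArg T3.b h
  have h3 := congrArg T3.c h
  simp only [mul, om] at h1 h2 h3
  have h4 : a ^ 2 - 4 * b * c = 1 := by linarith
  have h5 : a * (a + b) = c ^ 2 := by linarith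
  have hco : IsCoprime a (c ^ 2) := by
    apply IsCoprime.pow_right
    exact ⟨a, -4 * b, by linarith⟩
  have hu : IsUnit a := hco.isUnit_of_dvd' dvd_rfl ⟨a + b, h5.symm⟩
  rcases Int.isUnit_iff.1 hu with rfl | rfl
  · have h6 : b * c = 0 := by linarith
    rcases mul_eq_zero.1 h6 with rfl | rfl
    · have h7 : c ^ 2 = 1 := by linarith
      have h8 : c ≤ 1 := by nlinarith
      nlinarith
    · have h7 : b = -1 := by linarith
      subst h7; linarith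
  · have h6 : b * c = 0 := by linarith
    rcases mul_eq_zero.1 h6 with rfl | rfl
    · have h7 : c ^ 2 = 1 := by linarith
      have h8 : -1 ≤ c := by nlinarith
      nlinarith
    · have h7 : b = 1 := by linarith
      subst h7; linarith

lemma not_sq {r n : ℤ} (h : n = r ^ 2) (hn : n < 0 ∨ n = 2 ∨ n = 5 ∨ n = 8) : False := by
  have h9 : 0 ≤ r ^ 2 := sq_nonneg r
  rcases hn with h8 | h8 | h8 | h8
  · omega
  all_goals
    rw [h8] at h
    have h9 : r ≤ 3 := by nlinarith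
    have h10 : -3 ≤ r := by nlinarith
    interval_cases r <;> omega

lemma enum {A B C : ℤ} (h1 : 1 ≤ 3 * A + 8 * C) (h7 : 3 * A + 8 * C ≤ 7)
    (hS : 3 * A ^ 2 - 12 * B * C + 8 * B ^ 2 + 16 * A * C + 32 * C ^ 2 ≤ (3 * A + 8 * C) ^ 2)
    {r : ℤ} (hr : nm ⟨A, B, C⟩ = r ^ 2) :
    (A = 1 ∧ B = 0 ∧ C = 0) ∨ (A = 5 ∧ B = 0 ∧ C = -1) := by
  have hT : (3 * A + 8 * C) ^ 2 ≤ 49 := by nlinarith
  have hC : 37 * C ^ 2 + 3 * (4 * B - 3 * C) ^ 2 ≤ 4 * (3 * A + 8 * C) ^ 2 := by nlinarith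
  have hC1 : C ≤ 2 := by nlinarith [sq_nonneg (4 * B - 3 * C)]
  have hC2 : -2 ≤ C := by nlinarith [sq_nonneg (4 * B - 3 * C)]
  have hB1 : 4 * B - 3 * C ≤ 8 := by nlinarith [sq_nonneg C]
  have hB2 : -8 ≤ 4 * B - 3 * C := by nlinarith [sq_nonneg C]
  have hB3 : B ≤ 3 := by omega
  have hB4 : -3 ≤ B := by omega
  have hA1 : A ≤ 7 := by omega
  have hA2 : -5 ≤ A := by omega
  simp only [nm] at hr
  have key : ∀ A ∈ Finset.Icc (-5 : ℤ) 7, ∀ B ∈ Finset.Icc (-3 : ℤ) 3, ∀ C ∈ Finset.Icc (-2 : ℤ) 2,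
      1 ≤ 3 * A + 8 * C → 3 * A + 8 * C ≤ 7 →
      3 * A ^ 2 - 12 * B * C + 8 * B ^ 2 + 16 * A * C + 32 * C ^ 2 ≤ (3 * A + 8 * C) ^ 2 →
      ((A = 1 ∧ B = 0 ∧ C = 0) ∨ (A = 5 ∧ B = 0 ∧ C = -1)) ∨
      (A * ((A + 4 * C) ^ 2 - B * (4 * B - 2 * C)) - B * (-2 * C * (A + 4 * C) + 2 * B ^ 2) +
        C * (-2 * C * (4 * B - 2 * C) + 2 * B * (A + 4 * C)) < 0 ∨
      A * ((A + 4 * C) ^ 2 - B * (4 * B - 2 * C)) - B * (-2 * C * (A + 4 * C) + 2 * B ^ 2) +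
        C * (-2 * C * (4 * B - 2 * C) + 2 * B * (A + 4 * C)) = 2 ∨
      A * ((A + 4 * C) ^ 2 - B * (4 * B - 2 * C)) - B * (-2 * C * (A + 4 * C) + 2 * B ^ 2) +
        C * (-2 * C * (4 * B - 2 * C) + 2 * B * (A + 4 * C)) = 5 ∨
      A * ((A + 4 * C) ^ 2 - B * (4 * B - 2 * C)) - B * (-2 * C * (A + 4 * C) + 2 * B ^ 2) +
        C * (-2 * C * (4 * B - 2 * C) + 2 * B * (A + 4 * C)) = 8) := by
    decide +kernel
  have h8 := key A (Finset.mem_Icc.2 ⟨hA2, hA1⟩) B (Finset.mem_Icc.2 ⟨hB4, hB3⟩) C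
    (Finset.mem_Icc.2 ⟨hC2, hC1⟩) h1 h7 hS
  rcases h8 with h8 | h8
  · exact h8
  exfalso
  exact not_sq hr h8

/-- The integral points of `Y ^ 2 = 4 m ^ 3 - 4 m + 1` with `m ≥ 1` have `m ≤ 6`. -/
theorem bound {m Y : ℤ} (hm : 1 ≤ m) (hY : Y ^ 2 = 4 * m ^ 3 - 4 * m + 1) : m ≤ 6 := by
  have hsym : (gr m Y).transpose = gr m Y := by
    ext i j; fin_cases i <;> fin_cases j <;> simp [gr]
  obtain ⟨u, v, w, hne, hq⟩ := Ternary.hermite (gr m Y) hsym (gr_pos hm hY)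
  have hq0 := gr_pos hm hY u v w hne
  rw [gr_det hY] at hq
  rw [gr_q] at hq hq0
  have hq7 : tr (ka m Y u v w) ≤ 7 := by
    by_contra hcon
    push Not at hcon
    have : 8 ^ 3 ≤ tr (ka m Y u v w) ^ 3 := pow_le_pow_left₀ (by norm_num) hcon 3
    omega
  have hY0 : Y ≠ 0 := by
    rintro rfl
    omega
  have hok := om_ka hY u v w
  set k := ka m Y u v w with hk
  set b := be m Y u v w with hb
  -- the norm is a square
  have hn1 : Y ^ 2 * nm k = nm b ^ 2 := by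
    have := congrArg nm hok
    rw [nm_mul, nm_mul, nm_om, ← hY] at this
    linarith
  have hdvd : Y ∣ nm b := by
    have : Y ^ 2 ∣ nm b ^ 2 := ⟨nm k, hn1.symm⟩
    exact (Int.pow_dvd_pow_iff (by norm_num)).1 this
  obtain ⟨r, hr⟩ := hdvd
  have hn2 : nm k = r ^ 2 := by
    have hY2 : Y ^ 2 ≠ 0 := pow_ne_zero 2 hY0
    apply mul_left_cancel₀ hY2
    rw [hn1, hr]; ring
  -- the second symmetric function is nonnegative
  have hS : 0 ≤ tr (adj k) := by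
    have h1 : mul (om m) (mul (adj b) (adj b)) =
        ⟨nm (om m) * (adj k).a, nm (om m) * (adj k).b, nm (om m) * (adj k).c⟩ := by
      rw [← adj_mul, ← hok, adj_mul, mul_mul_adj]
    have h2 := om_form hm hY (adj b)
    rw [h1, nm_om, ← hY] at h2
    have h3 : 0 ≤ Y ^ 2 * tr (adj k) := by
      simp only [tr] at h2 ⊢
      linarith
    have hY2 : 0 < Y ^ 2 := by positivity
    exact nonneg_of_mul_nonneg_right h3 hY2
  have hS2 := tr_adj k
  obtain ⟨A, B, C, hk'⟩ : ∃ A B C, k = ⟨A, B, C⟩ := ⟨k.a, k.b, k.c, rfl⟩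
  have hen := enum (A := A) (B := B) (C := C) (r := r) (by rw [hk'] at hq0; simp only [tr] at hq0; omega)
    (by rw [hk'] at hq7; simp only [tr] at hq7; omega) ?_ (by rw [← hn2, hk'])
  · rcases hen with ⟨rfl, rfl, rfl⟩ | ⟨rfl, rfl, rfl⟩
    · -- `k = 1`
      apply sq_case b
      rw [← hok, hk']
      ext <;> simp [mul, om]
    · -- `k = 5 - φ ^ 2`, the square of a unit with inverse `1 - φ`
      apply sq_case (mul b ⟨1, -1, 0⟩)
      have h1 : mul (mul b ⟨1, -1, 0⟩) (mul b ⟨1, -1, 0⟩) =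
          mul (mul b b) (mul ⟨1, -1, 0⟩ ⟨1, -1, 0⟩) := by
        ext <;> simp only [mul] <;> ring
      rw [h1, ← hok, hk']
      ext <;> simp [mul, om] <;> ring
  · rw [hk'] at hS hS2
    simp only [tr, mul] at hS2 hS
    nlinarith

end Pool.Agent.H132.CurveA
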