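import Mathlib

/-!
# The parameters of exceptional designs: reduction to a system with coprime factors
-/

set_option autoImplicit false

namespace Pool.Agent.H132.Descent

/-- First reduction of the parameter equations. -/
structure Sys (s t g d f : ℤ) : Prop where
  hs : 1 ≤ s
  ht : 1 ≤ t
  hg : 1 ≤ g
  hd : 1 ≤ d
  hf : 0 ≤ f
  co : IsCoprime s t
  e1 : d * (g * s + 1) = (s + t) * (2 * s + t)
  e2 : g * ((s + t) ^ 2 - d) = t * (1 + (f + g) * (2 * s + t))

lemma reduce {m θ lam y : ℤ} (hm : 3 ≤ m) (hmy : m ≤ y) 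
    (hn : 1 ≤ θ - m + 2)
    (h1 : (y - 1) * (m + θ) = (m - 1) * (lam - 1))
    (h2 : lam * m * (θ - m + 2) = (m - 1) * θ * (θ + 1)) :
    ∃ s t g d f : ℤ, Sys s t g d f ∧ m = g * s + 1 ∧ θ - m + 2 = g * t ∧ y = m + s * f := by
  have hgpos : 0 < Int.gcd (m - 1) (θ - m + 2) := Int.gcd_pos_of_ne_zero_left _ (by omega)
  obtain ⟨s, t, hst, hs, ht⟩ := Int.exists_gcd_one hgpos
  set g : ℤ := (Int.gcd (m - 1) (θ - m + 2) : ℤ) with hg
  have hg1 : 1 ≤ g := by rw [hg]; exact_mod_cast hgpos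
  have hs1 : 1 ≤ s := by
    by_contra hcon
    have : s * g ≤ 0 := mul_nonpos_of_nonpos_of_nonneg (by omega) (by omega)
    omega
  have ht1 : 1 ≤ t := by
    by_contra hcon
    have : t * g ≤ 0 := mul_nonpos_of_nonpos_of_nonneg (by omega) (by omega)
    omega
  have co : IsCoprime s t := Int.isCoprime_iff_gcd_eq_one.2 hst
  have hmg : m = g * s + 1 := by linarith
  have hθg : θ = g * (s + t) - 1 := by linarith
  -- `y - m = s f`
  have h3 : (y - m) * (2 * s + t) = s * (lam - 1 - m - θ) := by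
    have hg0 : g ≠ 0 := by omega
    apply mul_left_cancel₀ hg0
    rw [hmg, hθg] at h1 ⊢
    linear_combination h1
  have hco2 : IsCoprime s (2 * s + t) := by
    obtain ⟨a, b, hab⟩ := co
    exact ⟨a - 2 * b, b, by linarith⟩
  obtain ⟨f, hf⟩ : s ∣ y - m := hco2.dvd_of_dvd_mul_right ⟨_, h3⟩
  have hf0 : 0 ≤ f := by
    by_contra hcon
    have : s * f < 0 := mul_neg_of_pos_of_neg (by omega) (by omega)
    omega
  have hlam : lam = 1 + (f + g) * (2 * s + t) := by
    have hs0 : s ≠ 0 := by omega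
    apply mul_left_cancel₀ hs0
    rw [hf] at h3
    rw [hmg, hθg] at h3
    linear_combination -h3
  have hE0 : (1 + (f + g) * (2 * s + t)) * (g * s + 1) * t =
      g * s * ((s + t) * (g * (s + t) - 1)) := by
    have hg0 : g ≠ 0 := by omega
    apply mul_left_cancel₀ hg0
    rw [hlam, hmg, hθg] at h2
    linear_combination h2
  have hc1 : IsCoprime (g * s + 1) (g * s) := ⟨1, -1, by ring⟩
  have hc2 : IsCoprime (g * s + 1) g := ⟨1, -s, by ring⟩
  have hd1 : (g * s + 1) ∣ (s + t) * (g * (s + t) - 1) := by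
    apply hc1.dvd_of_dvd_mul_left
    exact ⟨(1 + (f + g) * (2 * s + t)) * t, by linear_combination -hE0⟩
  have hd2 : (g * s + 1) ∣ g * ((s + t) * (2 * s + t)) := by
    have h4 : g * ((s + t) * (2 * s + t)) = (s + t) * (g * (s + t) - 1) +
        (g * s + 1) * (s + t) := by ring
    rw [h4]
    exact dvd_add hd1 (dvd_mul_right _ _)
  obtain ⟨d, hd⟩ := hc2.dvd_of_dvd_mul_left hd2
  have hd0 : 1 ≤ d := by
    by_contra hcon
    have h5 : (g * s + 1) * d ≤ 0 := mul_nonpos_of_nonneg_of_nonpos (by positivity) (by omega)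
    have h6 : 0 < (s + t) * (2 * s + t) := by positivity
    omega
  refine ⟨s, t, g, d, f, ⟨hs1, ht1, hg1, hd0, hf0, co, by linear_combination -hd, ?_⟩, hmg,
    by linarith, by linarith⟩
  have hm0 : g * s + 1 ≠ 0 := by positivity
  apply mul_left_cancel₀ hm0
  linear_combination -hE0 - (g ^ 2 * s) * hd + (g * s + 1) * g * hd

/-- The final system. -/
structure Core (f u v c k a b N Z : ℤ) : Prop where
  hu : 1 ≤ u
  hv : 1 ≤ v
  hc : 1 ≤ c
  hk : 1 ≤ k
  ha : 1 ≤ a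
  hb : 1 ≤ b
  F1 : c * u ^ 3 = v ^ 2 + 2 * u * v + 4 * u ^ 2 + N
  F2 : c * N = v + 2 * u + Z
  F3 : k * (a * b) ^ 2 = 11 * u ^ 3 + 2 * u * N + v * N - u * (2 * v - u) * Z
  F5 : k * f * (a * b) = 2 * v + 5 * u + Z
  F7 : 0 < (c * u - 1) * u ^ 2 - v ^ 2
  dG : a * b ∣ 2 * u ^ 2 + u * Z - N
  dk1 : k ∣ 3 * u + Z
  dk2 : k ∣ c * Z + 3
  da1 : a ∣ 5 * u + Z
  da2 : a ∣ c * Z + 5
  db1 : b ∣ 4 * u + Z
  db2 : b ∣ c * Z + 5
  cab : IsCoprime a b
  cku : IsCoprime k u
  cau : IsCoprime a u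
  cbu : IsCoprime b u
  cuv : IsCoprime u v
  bodd : ¬ (2 : ℤ) ∣ b

lemma pos_factor {x y z : ℤ} (h : z = x * y) (hz : 1 ≤ z) :
    ∃ x' y' : ℤ, z = x' * y' ∧ 1 ≤ x' ∧ 1 ≤ y' ∧ x' ∣ x ∧ y' ∣ y := by
  refine ⟨|x|, |y|, ?_, ?_, ?_, (abs_dvd x x).2 dvd_rfl, (abs_dvd y y).2 dvd_rfl⟩
  · rw [← abs_mul, ← h, abs_of_pos (by omega)]
  · have : x ≠ 0 := by rintro rfl; omega
    exact Int.one_le_abs this
  · have : y ≠ 0 := by rintro rfl; omega
    exact Int.one_le_abs this

theorem descent {s t g d f : ℤ} (S : Sys s t g d f) :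
    ∃ u v c k a b N Z : ℤ, Core f u v c k a b N Z ∧
      s * (a * b) = (c * u - 1) * u ^ 2 - v ^ 2 ∧ t * (a * b) = v * (2 * v + u) ∧
      k * g * (a * b) = (c * u - 1) * (2 * v + u) := by
  obtain ⟨hs, ht, hg, hd, hf, co, e1, e2⟩ := S
  set h := f + g with hh
  have hh1 : 1 ≤ h := by omega
  have coL : IsCoprime s (2 * s + t) := by
    obtain ⟨a, b, hab⟩ := co
    exact ⟨a - 2 * b, b, by linarith⟩
  have coKL : IsCoprime (s + t) (2 * s + t) := by
    obtain ⟨a, b, hab⟩ := co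
    exact ⟨2 * b - a, a - b, by linarith⟩
  -- factor `m`
  obtain ⟨k1', l1', hk1', hl1', hm'⟩ := exists_dvd_and_dvd_of_dvd_mul
    (show g * s + 1 ∣ (s + t) * (2 * s + t) from ⟨d, by linear_combination -e1⟩)
  obtain ⟨k1, l1, hm, hk1, hl1, hk1d, hl1d⟩ := pos_factor hm' (by nlinarith)
  obtain ⟨k2, hK⟩ := hk1d.trans hk1'
  obtain ⟨l2, hL⟩ := hl1d.trans hl1'
  have hk2 : 1 ≤ k2 := by
    by_contra hcon
    have : k1 * k2 ≤ 0 := mul_nonpos_of_nonneg_of_nonpos (by omega) (by omega)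
    omega
  have hl2 : 1 ≤ l2 := by
    by_contra hcon
    have : l1 * l2 ≤ 0 := mul_nonpos_of_nonneg_of_nonpos (by omega) (by omega)
    omega
  have hdk : d = k2 * l2 := by
    have h0 : g * s + 1 ≠ 0 := by positivity
    apply mul_left_cancel₀ h0
    rw [hK, hL] at e1
    rw [mul_comm, e1, hm]; ring
  -- first divisibilities by `s`
  have hs1 : t * (1 + h * (2 * s + t)) = s * (g * (d * g - (s + t))) := by
    linear_combination -e2 - g * e1
  have hsd : s ∣ 1 + h * (2 * s + t) := co.dvd_of_dvd_mul_left ⟨_, hs1⟩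
  have cosl1 : IsCoprime s l1 := ⟨-g, k1, by linarith⟩
  have cosk1 : IsCoprime s k1 := ⟨-g, l1, by linarith⟩
  obtain ⟨η, hη⟩ : s ∣ k1 + l2 * h := by
    apply cosl1.dvd_of_dvd_mul_left
    have : l1 * (k1 + l2 * h) = s * g + (1 + h * (2 * s + t)) := by
      rw [hL]; linear_combination -hm
    rw [this]
    exact dvd_add (dvd_mul_right _ _) hsd
  obtain ⟨ζ, hζ⟩ : s ∣ l1 + k2 * h := by
    apply cosk1.dvd_of_dvd_mul_left
    have : k1 * (l1 + k2 * h) = s * (g - h) + (1 + h * (2 * s + t)) := by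
      linear_combination -hm - h * hK
    rw [this]
    exact dvd_add (dvd_mul_right _ _) hsd
  have hη1 : 1 ≤ η := by
    by_contra hcon
    have h1 : s * η ≤ 0 := mul_nonpos_of_nonneg_of_nonpos (by omega) (by omega)
    have h2 : 0 < k1 + l2 * h := by positivity
    omega
  have hζ1 : 1 ≤ ζ := by
    by_contra hcon
    have h1 : s * ζ ≤ 0 := mul_nonpos_of_nonneg_of_nonpos (by omega) (by omega)
    have h2 : 0 < l1 + k2 * h := by positivity
    omega
  have hdet : l2 * ζ - k2 * η = 1 := by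
    have hs0 : s ≠ 0 := by omega
    apply mul_left_cancel₀ hs0
    linear_combination -l2 * hζ + k2 * hη + hK - hL
  -- `ψ`
  set ψ := k1 * (d * g - (s + t)) - t * h * l2 with hψ
  have hlψ : l1 * ψ = d * g - s := by
    have e3 : t * (1 + h * (2 * s + t)) = (k1 * l1 - 1) * (d * g - (s + t)) := by
      rw [hs1, ← hm]; ring
    rw [hL] at e3
    rw [hψ]
    linear_combination -e3
  have hdK : d < (s + t) ^ 2 := by
    have h1 : 0 < t * (1 + h * (2 * s + t)) := by positivity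
    rw [← e2] at h1
    have := (mul_pos_iff_of_pos_left (by omega : 0 < g)).1 h1
    linarith
  have hdgs : s < d * g := by
    have h1 : s * (s + t) < s * (d * g) := by nlinarith
    have h2 := lt_of_mul_lt_mul_left h1 (by omega)
    linarith
  have hψ1 : 1 ≤ ψ := by
    by_contra hcon
    have : l1 * ψ ≤ 0 := mul_nonpos_of_nonneg_of_nonpos (by omega) (by omega)
    omega
  have hps : k2 * η * s = (s + t) + d * h := by
    rw [hdk, hK]; linear_combination -k2 * hη
  have hR3 : k2 * η * t * (2 * s + t) = g * d * (g * d - s) := by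
    have hs0 : s ≠ 0 := by omega
    apply mul_left_cancel₀ hs0
    linear_combination (t * (2 * s + t)) * hps + (s - (s + t) - g * d) * e1 - d * e2
  have hgψ : g * ψ = η * t := by
    have h0 : k2 * l2 * l1 ≠ 0 := by positivity
    apply mul_left_cancel₀ h0
    have h1 : g * d * (g * d - s) = g * d * (l1 * ψ) := by rw [hlψ]; ring
    rw [h1, hL, hdk] at hR3
    linear_combination -hR3
  have coψ : IsCoprime l2 ψ := by
    obtain ⟨a, b, hab⟩ := coL
    refine ⟨a * k2 * g + b * l1, -a * l1, ?_⟩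
    rw [hL] at hab
    rw [hdk] at hlψ
    linear_combination hab + (-a) * hlψ
  -- `G`
  have hG0 : s * (ψ * (2 * ψ + l2)) = t * (k2 * η * l2 ^ 2 - ψ ^ 2) := by
    have h1 : t * (k2 * η * l2 ^ 2) = (2 * s + t) * ψ ^ 2 + s * l2 * ψ := by
      rw [hdk] at hlψ
      rw [hL]
      linear_combination (-k2 * l2 ^ 2) * hgψ - (l2 * ψ) * hlψ
    linear_combination -h1
  obtain ⟨G, hG⟩ : s ∣ k2 * η * l2 ^ 2 - ψ ^ 2 := co.dvd_of_dvd_mul_left ⟨_, hG0.symm⟩
  have htG : t * G = ψ * (2 * ψ + l2) := by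
    have hs0 : s ≠ 0 := by omega
    apply mul_left_cancel₀ hs0
    rw [hG0, hG]; ring
  have hG1 : 1 ≤ G := by
    by_contra hcon
    have h1 : t * G ≤ 0 := mul_nonpos_of_nonneg_of_nonpos (by omega) (by omega)
    have h2 : 0 < ψ * (2 * ψ + l2) := by positivity
    omega
  have hgG : g * G = η * (2 * ψ + l2) := by
    have ht0 : t ≠ 0 := by omega
    apply mul_left_cancel₀ ht0
    linear_combination g * htG + (2 * ψ + l2) * hgψ
  have hlG : l1 * G = 2 * (k2 * η) * l2 + ψ := by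
    have h0 : l2 ≠ 0 := by omega
    apply mul_left_cancel₀ h0
    linear_combination -G * hL - 2 * hG + htG
  have hkG : k1 * k2 * G = k2 * η * l2 ^ 2 + ψ ^ 2 + ψ * l2 := by
    linear_combination -G * hK - hG + htG
  have cokl : IsCoprime k2 l1 := by
    rw [hK, hL] at coKL
    exact (coKL.of_mul_left_right).of_mul_right_left
  have hkψ : k2 ∣ l2 + ψ := by
    apply cokl.dvd_of_dvd_mul_left
    refine ⟨k1 + l2 * g, ?_⟩
    rw [hdk] at hlψ
    linear_combination hlψ - hL + hK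
  have hmain : k2 * G ^ 2 = (k2 * η * l2 ^ 2 + ψ ^ 2 + ψ * l2) * (2 * (k2 * η) * l2 + ψ) -
      k2 * η * (2 * ψ + l2) * (k2 * η * l2 ^ 2 - ψ ^ 2) := by
    rw [hG, ← hkG, ← hlG]
    linear_combination (-k2 * s * G) * hgG + (k2 * G ^ 2) * hm
  have hfG : k2 * f * G * l2 = k2 * η * (k2 * η * l2 ^ 2 - ψ ^ 2) -
      (k2 * η * l2 ^ 2 + ψ ^ 2 + ψ * l2) - l2 * (k2 * η) * (2 * ψ + l2) := by
    rw [hG, ← hkG]
    have hf' : f = h - g := by rw [hh]; ring
    rw [hf']
    linear_combination (k2 * G) * hη - (l2 * k2) * hgG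
  -- factor `G`
  obtain ⟨a', b', ha', hb', hab'⟩ := exists_dvd_and_dvd_of_dvd_mul
    (show G ∣ ψ * (2 * ψ + l2) from ⟨t, by linear_combination -htG⟩)
  obtain ⟨a, b, hab, ha, hb, had, hbd⟩ := pos_factor hab' hG1
  have haψ : a ∣ ψ := had.trans ha'
  have hbψ : b ∣ 2 * ψ + l2 := hbd.trans hb'
  have coGu : IsCoprime G l2 := by
    have h1 : IsCoprime l2 (2 * (k2 * η) * l2 + ψ) := by
      obtain ⟨x, y, hxy⟩ := coψ
      exact ⟨x - 2 * (k2 * η) * y, y, by linear_combination hxy⟩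
    rw [← hlG] at h1
    exact (h1.of_mul_right_right).symm
  have cau : IsCoprime a l2 := by
    rw [hab] at coGu; exact coGu.of_mul_left_left
  have cbu : IsCoprime b l2 := by
    rw [hab] at coGu; exact coGu.of_mul_left_right
  have bodd : ¬ (2 : ℤ) ∣ b := by
    intro h2
    have h3 : (2 : ℤ) ∣ l2 := by
      have h4 := h2.trans hbψ
      omega
    have h5 := cbu.isUnit_of_dvd' h2 h3
    rcases Int.isUnit_iff.1 h5 with h | h <;> omega
  have cab : IsCoprime a b := by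
    have h1 : IsCoprime ψ (2 * ψ + l2) := by
      obtain ⟨x, y, hxy⟩ := coψ
      exact ⟨y - 2 * x, x, by linear_combination hxy⟩
    exact (h1.of_isCoprime_of_dvd_left haψ).of_isCoprime_of_dvd_right hbψ
  have hap : a ∣ k2 * η := by
    have h1 : a ∣ l2 ^ 2 * (k2 * η) := by
      have h2 : l2 ^ 2 * (k2 * η) = s * G + ψ * ψ := by linear_combination hG
      rw [h2, hab]
      exact dvd_add ⟨s * b, by ring⟩ (haψ.mul_right _)
    exact (cau.pow_right).dvd_of_dvd_mul_left h1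
  have hb4 : IsCoprime b 4 := by
    have h1 : IsCoprime b 2 := by
      rw [isCoprime_comm, Prime.coprime_iff_not_dvd Int.prime_two]; exact bodd
    have : (4 : ℤ) = 2 ^ 2 := by norm_num
    rw [this]; exact h1.pow_right
  have hbp : b ∣ 4 * (k2 * η) - 1 := by
    apply cbu.dvd_of_dvd_mul_left
    have h2 : l2 * (4 * (k2 * η) - 1) = 2 * (l1 * G) - (2 * ψ + l2) := by
      rw [hlG]; ring
    rw [h2]
    exact dvd_sub ⟨2 * (l1 * a), by rw [hab]; ring⟩ hbψ
  have hp : k2 * η = ζ * l2 - 1 := by linear_combination -hdet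
  -- `N` and `Z`
  set N := k2 * η * l2 ^ 2 - (ψ + l2) ^ 2 - 2 * l2 ^ 2 with hN
  set Z := ζ * N - ψ - 2 * l2 with hZ
  have hF5 : k2 * f * (a * b) = 2 * ψ + 5 * l2 + Z := by
    have h0 : l2 ≠ 0 := by omega
    apply mul_left_cancel₀ h0
    rw [← hab]
    have h1 : l2 * (k2 * f * G) = k2 * f * G * l2 := by ring
    rw [h1, hfG, hZ, hN, hp]
    ring
  refine ⟨l2, ψ, ζ, k2, a, b, N, Z, ?_, ?_, ?_, ?_⟩
  · constructor
    · exact hl2
    · exact hψ1
    · exact hζ1
    · exact hk2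
    · exact ha
    · exact hb
    · rw [hN, hp]; ring
    · rw [hZ]; ring
    · rw [← hab, hmain, hZ, hN, hp]; ring
    · exact hF5
    · rw [← hp, hG]; positivity
    · -- dG
      have h1 : 2 * l2 ^ 2 + l2 * Z - N = (a * b) * (k2 * f * l2 - s) := by
        have h2 : 2 * l2 ^ 2 + l2 * Z - N = l2 * (2 * ψ + 5 * l2 + Z) -
            (k2 * η * l2 ^ 2 - ψ ^ 2) := by rw [hN]; ring
        rw [h2, ← hF5, hG, hab]; ring
      rw [h1]; exact dvd_mul_right _ _
    · -- k ∣ 3 u + Z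
      have h1 : k2 ∣ N + 2 * l2 ^ 2 := by
        have : N + 2 * l2 ^ 2 = k2 * (η * l2 ^ 2) - (l2 + ψ) * (l2 + ψ) := by rw [hN]; ring
        rw [this]
        exact dvd_sub (dvd_mul_right _ _) (hkψ.mul_right _)
      have h2 : 3 * l2 + Z = ζ * (N + 2 * l2 ^ 2) - k2 * (2 * l2 * η) - (l2 + ψ) := by
        rw [hZ]; linear_combination (2 * l2) * hp
      rw [h2]
      exact dvd_sub (dvd_sub (h1.mul_left _) (dvd_mul_right _ _)) hkψ
    · have h1 : k2 ∣ N + 2 * l2 ^ 2 := by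
        have : N + 2 * l2 ^ 2 = k2 * (η * l2 ^ 2) - (l2 + ψ) * (l2 + ψ) := by rw [hN]; ring
        rw [this]
        exact dvd_sub (dvd_mul_right _ _) (hkψ.mul_right _)
      have h2 : 3 * l2 + Z = ζ * (N + 2 * l2 ^ 2) - k2 * (2 * l2 * η) - (l2 + ψ) := by
        rw [hZ]; linear_combination (2 * l2) * hp
      have h3 : k2 ∣ 3 * l2 + Z := by
        rw [h2]
        exact dvd_sub (dvd_sub (h1.mul_left _) (dvd_mul_right _ _)) hkψ
      have h4 : ζ * Z + 3 = ζ * (3 * l2 + Z) - k2 * (3 * η) := by linear_combination 3 * hp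
      rw [h4]
      exact dvd_sub (h3.mul_left _) (dvd_mul_right _ _)
    · -- a ∣ 5 u + Z
      have h1 : a ∣ N + 3 * l2 ^ 2 := by
        have : N + 3 * l2 ^ 2 = k2 * η * l2 ^ 2 - ψ * (ψ + 2 * l2) := by rw [hN]; ring
        rw [this]
        exact dvd_sub (hap.mul_right _) (haψ.mul_right _)
      have h2 : 5 * l2 + Z = ζ * (N + 3 * l2 ^ 2) - k2 * η * (3 * l2) - ψ := by
        rw [hZ]; linear_combination (3 * l2) * hp
      rw [h2]
      exact dvd_sub (dvd_sub (h1.mul_left _) (hap.mul_right _)) haψ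
    · have h1 : a ∣ N + 3 * l2 ^ 2 := by
        have : N + 3 * l2 ^ 2 = k2 * η * l2 ^ 2 - ψ * (ψ + 2 * l2) := by rw [hN]; ring
        rw [this]
        exact dvd_sub (hap.mul_right _) (haψ.mul_right _)
      have h2 : 5 * l2 + Z = ζ * (N + 3 * l2 ^ 2) - k2 * η * (3 * l2) - ψ := by
        rw [hZ]; linear_combination (3 * l2) * hp
      have h3 : a ∣ 5 * l2 + Z := by
        rw [h2]
        exact dvd_sub (dvd_sub (h1.mul_left _) (hap.mul_right _)) haψ
      have h4 : ζ * Z + 5 = ζ * (5 * l2 + Z) - k2 * η * 5 := by linear_combination 5 * hp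
      rw [h4]
      exact dvd_sub (h3.mul_left _) (hap.mul_right _)
    · -- b ∣ 4 u + Z
      have h1 : b ∣ 4 * (N + 2 * l2 ^ 2) := by
        have : 4 * (N + 2 * l2 ^ 2) = (4 * (k2 * η) - 1) * l2 ^ 2 -
            (2 * ψ + l2) * (2 * ψ + l2 + 2 * l2) := by rw [hN]; ring
        rw [this]
        exact dvd_sub (hbp.mul_right _) (hbψ.mul_right _)
      apply hb4.dvd_of_dvd_mul_left
      have h2 : 4 * (4 * l2 + Z) = ζ * (4 * (N + 2 * l2 ^ 2)) - (4 * (k2 * η) - 1) * (2 * l2) -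
          (2 * ψ + l2) * 2 := by
        rw [hZ]; linear_combination (8 * l2) * hp
      rw [h2]
      exact dvd_sub (dvd_sub (h1.mul_left _) (hbp.mul_right _)) (hbψ.mul_right _)
    · have h1 : b ∣ 4 * (N + 2 * l2 ^ 2) := by
        have : 4 * (N + 2 * l2 ^ 2) = (4 * (k2 * η) - 1) * l2 ^ 2 -
            (2 * ψ + l2) * (2 * ψ + l2 + 2 * l2) := by rw [hN]; ring
        rw [this]
        exact dvd_sub (hbp.mul_right _) (hbψ.mul_right _)
      apply hb4.dvd_of_dvd_mul_left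
      have h2 : 4 * (4 * l2 + Z) = ζ * (4 * (N + 2 * l2 ^ 2)) - (4 * (k2 * η) - 1) * (2 * l2) -
          (2 * ψ + l2) * 2 := by
        rw [hZ]; linear_combination (8 * l2) * hp
      have h3 : b ∣ 4 * (4 * l2 + Z) := by
        rw [h2]
        exact dvd_sub (dvd_sub (h1.mul_left _) (hbp.mul_right _)) (hbψ.mul_right _)
      have h4 : 4 * (ζ * Z + 5) = ζ * (4 * (4 * l2 + Z)) - (4 * (k2 * η) - 1) * 4 := by
        linear_combination 16 * hp
      rw [h4]
      exact dvd_sub (h3.mul_left _) (hbp.mul_right _)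
    · exact cab
    · exact ⟨-η, ζ, by linear_combination hdet⟩
    · exact cau
    · exact cbu
    · exact coψ
    · exact bodd
  · rw [← hab, ← hp, hG]
  · rw [← hab, htG]
  · rw [← hab, ← hp]; linear_combination k2 * hgG

end Pool.Agent.H132.Descent
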