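import Mathlib

/-!
# Endgame: positive `Z`
-/

set_option autoImplicit false

namespace Pool.Agent.H132.EndPos

/-- The data of the case `Z > 0`. -/
structure BD (u c k a b Z h a1 b7 : ℤ) (x y z P Q w : ℝ) : Prop where
  hu : 1 ≤ u
  hc : 1 ≤ c
  hk : 1 ≤ k
  ha : 1 ≤ a
  hb : 1 ≤ b
  hZ : 1 ≤ Z
  hh : 1 ≤ h
  ha1 : 1 ≤ a1
  e1 : k * a1 = 3 * u + Z
  e2 : k * b7 = c * Z + 3
  e3 : a * b * h = c * Z + 5
  cku : IsCoprime k u
  cau : IsCoprime a u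
  cbu : IsCoprime b u
  da1 : a ∣ 5 * u + Z
  db1 : b ∣ 4 * u + Z
  zu : z * u = Z
  Pu : P = c * u
  Qu : Q * u ^ 3 = k * (a * b) ^ 2
  wu : w * u = 36 * u + 20 * Z - c * Z ^ 2
  hxy : x * y = 1
  hy : 0 < y
  hx : 10 ^ 20 ≤ x
  hz : 0 < z
  hQ : 0 < Q
  hz6 : z ≤ 6.0001 * y

variable {u c k a b Z h a1 b7 : ℤ} {x y z P Q w : ℝ}

lemma BD.up (D : BD u c k a b Z h a1 b7 x y z P Q w) : (0 : ℝ) < u := by
  have := D.hu
  exact_mod_cast (by omega : 0 < u)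

lemma BD.dvda (D : BD u c k a b Z h a1 b7 x y z P Q w) : a ∣ 2 * (Z * b7 + 5 * a1) := by
  obtain ⟨p, q, hpq⟩ := D.cku
  obtain ⟨a', ha'⟩ := D.da1
  have h1 : k * (Z * b7 + 5 * a1) = a * (b * h * Z + 3 * a') := by
    linear_combination Z * D.e2 + 5 * D.e1 - Z * D.e3 - (-3) * ha'
  refine ⟨(2 * p - q * a1) * (b * h * Z + 3 * a') + q * a' * (Z * b7 + 5 * a1), ?_⟩
  have h2 : (2 : ℤ) = k * (2 * p - q * a1) + a * (q * a') := by
    linear_combination (-2) * hpq + q * D.e1 + q * ha'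
  calc 2 * (Z * b7 + 5 * a1) = (k * (2 * p - q * a1) + a * (q * a')) * (Z * b7 + 5 * a1) := by
        rw [← h2]
    _ = (2 * p - q * a1) * (k * (Z * b7 + 5 * a1)) + a * (q * a') * (Z * b7 + 5 * a1) := by ring
    _ = _ := by rw [h1]; ring

lemma BD.dvdb (D : BD u c k a b Z h a1 b7 x y z P Q w) : b ∣ Z * b7 + 8 * a1 := by
  obtain ⟨p, q, hpq⟩ := D.cku
  obtain ⟨b', hb'⟩ := D.db1
  have h1 : k * (Z * b7 + 8 * a1) = b * (a * h * Z + 6 * b') := by
    linear_combination Z * D.e2 + 8 * D.e1 - Z * D.e3 - (-6) * hb'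
  refine ⟨(p - q * a1) * (a * h * Z + 6 * b') + q * b' * (Z * b7 + 8 * a1), ?_⟩
  have h2 : (1 : ℤ) = k * (p - q * a1) + b * (q * b') := by
    linear_combination (-1) * hpq + q * D.e1 + q * hb'
  calc (Z * b7 + 8 * a1) = (k * (p - q * a1) + b * (q * b')) * (Z * b7 + 8 * a1) := by
        rw [← h2]; ring
    _ = (p - q * a1) * (k * (Z * b7 + 8 * a1)) + b * (q * b') * (Z * b7 + 8 * a1) := by ring
    _ = _ := by rw [h1]; ring

lemma BD.kW (D : BD u c k a b Z h a1 b7 x y z P Q w) :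
    k * (12 * a1 - Z * b7) = (36 * u + 20 * Z - c * Z ^ 2) - 11 * Z := by
  linear_combination 12 * D.e1 - Z * D.e2

lemma BD.aW (D : BD u c k a b Z h a1 b7 x y z P Q w) :
    a ∣ 5 * (36 * u + 20 * Z - c * Z ^ 2) - 89 * Z := by
  obtain ⟨a', ha'⟩ := D.da1
  exact ⟨36 * a' - 5 * Z * (b * h), by linear_combination 36 * ha' + 5 * Z * D.e3⟩

lemma BD.bW (D : BD u c k a b Z h a1 b7 x y z P Q w) :
    b ∣ (36 * u + 20 * Z - c * Z ^ 2) - 16 * Z := by
  obtain ⟨b', hb'⟩ := D.db1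
  exact ⟨9 * b' - Z * (a * h), by linear_combination 9 * hb' + Z * D.e3⟩

lemma BD.b7pos (D : BD u c k a b Z h a1 b7 x y z P Q w) : 1 ≤ b7 := by
  have h1 := D.hk
  have h2 := D.e2
  have h3 := D.hc
  have h4 := D.hZ
  by_contra hcon
  have : k * b7 ≤ 0 := mul_nonpos_of_nonneg_of_nonpos (by omega) (by omega)
  have : 0 < c * Z := by positivity
  omega

/-- Case (a). -/
lemma BD.caseA (D : BD u c k a b Z h a1 b7 x y z P Q w) (h1 : P * z ^ 2 + 5 * z ≤ 37)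
    (h2 : z ≤ 0.01) (h3 : 1 / 10 ^ 4 ≤ Q) : c * u ≤ 10 ^ 60 := by
  have hu := D.up
  have hZ := D.hZ
  have hh := D.hh
  have ha1 := D.ha1
  have hk := D.hk
  have hc := D.hc
  have hu1 := D.hu
  have hb7 := D.b7pos
  have hcu : (c : ℝ) * Z = P * z := by
    rw [D.Pu, ← D.zu]; ring
  -- the main bound
  have r1 : a1 * h ^ 2 * Z ^ 2 * (k * (a * b) ^ 2) = (3 * u + Z) * (Z * (c * Z + 5)) ^ 2 := by
    rw [← D.e1, ← D.e3]; ring
  have r2 : (a1 : ℝ) * h ^ 2 * Z ^ 2 * Q = (3 + z) * (P * z ^ 2 + 5 * z) ^ 2 := by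
    have h4 : (a1 : ℝ) * h ^ 2 * Z ^ 2 * (k * (a * b) ^ 2) =
        (3 * u + Z) * (Z * (c * Z + 5)) ^ 2 := by exact_mod_cast r1
    rw [← D.Qu] at h4
    have h5 : (u : ℝ) ^ 3 ≠ 0 := by positivity
    apply mul_right_cancel₀ h5
    rw [hcu, ← D.zu] at h4
    rw [← D.zu]
    linear_combination h4
  have hPz : 0 ≤ P * z ^ 2 + 5 * z := by
    have : 0 ≤ P := by rw [D.Pu]; positivity
    have := D.hz
    positivity
  have r3 : (a1 : ℝ) * h ^ 2 * Z ^ 2 * Q ≤ 4121 := by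
    rw [r2]
    have h4 : (P * z ^ 2 + 5 * z) ^ 2 ≤ 37 ^ 2 := pow_le_pow_left₀ hPz h1 2
    have h5 : (3 + z) * (P * z ^ 2 + 5 * z) ^ 2 ≤ 3.01 * 37 ^ 2 :=
      mul_le_mul (by linarith) h4 (sq_nonneg _) (by norm_num)
    refine h5.trans ?_; norm_num
  have r4 : (a1 : ℝ) * h ^ 2 * Z ^ 2 ≤ 42000000 := by
    have h4 : 0 ≤ (a1 : ℝ) * h ^ 2 * Z ^ 2 := by positivity
    have h5 : (a1 : ℝ) * h ^ 2 * Z ^ 2 * (1 / 10 ^ 4) ≤ (a1 : ℝ) * h ^ 2 * Z ^ 2 * Q :=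
      mul_le_mul_of_nonneg_left h3 h4
    linarith
  have r5 : a1 * h ^ 2 * Z ^ 2 ≤ 42000000 := by exact_mod_cast r4
  have hZ2 : 1 ≤ Z ^ 2 := one_le_pow₀ hZ
  have hh2 : h ≤ h ^ 2 := by nlinarith
  have r6 : a1 * h ≤ 42000000 := by
    calc a1 * h ≤ a1 * h ^ 2 * 1 := by rw [mul_one]; exact mul_le_mul_of_nonneg_left hh2 (by omega)
      _ ≤ a1 * h ^ 2 * Z ^ 2 := mul_le_mul_of_nonneg_left hZ2 (by positivity)
      _ ≤ _ := r5
  have r7 : a1 ≤ 42000000 := by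
    calc a1 = a1 * 1 := by ring
      _ ≤ a1 * h := mul_le_mul_of_nonneg_left hh (by omega)
      _ ≤ _ := r6
  -- `T ≤ 13 a1`
  have hT : Z * b7 ≤ 13 * a1 := by
    have h4 : k * (Z * b7) ≤ k * (13 * a1) := by
      have h5 : k * (Z * b7) = Z * (c * Z + 3) := by rw [← D.e2]; ring
      have h6 : k * (13 * a1) = 39 * u + 13 * Z := by linear_combination 13 * D.e1
      rw [h5, h6]
      have h7 : (Z : ℝ) * (c * Z + 3) ≤ 39 * u + 13 * Z := by
        have h8 : (Z : ℝ) * (c * Z + 3) = u * (P * z ^ 2 + 3 * z) := by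
          rw [hcu, ← D.zu]; ring
        rw [h8]
        have h9 : (u : ℝ) * (P * z ^ 2 + 3 * z) ≤ u * 39 :=
          mul_le_mul_of_nonneg_left (by linarith [D.hz]) hu.le
        have : (0 : ℝ) ≤ Z := by exact_mod_cast (by omega : 0 ≤ Z)
        linarith
      exact_mod_cast h7
    exact le_of_mul_le_mul_left h4 (by omega)
  have hTp : 0 < Z * b7 := by positivity
  have ra : a ≤ 36 * a1 := by
    have := Int.le_of_dvd (by linarith) D.dvda
    linarith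
  have rb : b ≤ 21 * a1 := by
    have := Int.le_of_dvd (by linarith) D.dvdb
    linarith
  have rab : a * b ≤ (36 * a1) * (21 * a1) := mul_le_mul ra rb (by linarith [D.hb]) (by linarith)
  have rc : c * Z + 5 ≤ 756 * 42000000 ^ 2 := by
    rw [← D.e3]
    calc a * b * h ≤ (36 * a1) * (21 * a1) * h := mul_le_mul_of_nonneg_right rab (by omega)
      _ = 756 * (a1 * (a1 * h)) := by ring
      _ ≤ 756 * (42000000 * 42000000) := by
          apply mul_le_mul_of_nonneg_left _ (by norm_num)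
          exact mul_le_mul r7 r6 (by positivity) (by norm_num)
      _ = _ := by norm_num
  have hcZ : c ≤ c * Z := by nlinarith
  have hkle : k ≤ 756 * 42000000 ^ 2 := by
    have h4 : k * 1 ≤ k * b7 := mul_le_mul_of_nonneg_left hb7 (by omega)
    rw [D.e2] at h4
    linarith
  have hule : u ≤ 756 * 42000000 ^ 2 * 42000000 := by
    have h4 : k * a1 ≤ 756 * 42000000 ^ 2 * 42000000 :=
      mul_le_mul hkle r7 (by omega) (by norm_num)
    rw [D.e1] at h4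
    linarith
  have hcle : c ≤ 756 * 42000000 ^ 2 := by linarith
  calc c * u ≤ (756 * 42000000 ^ 2) * (756 * 42000000 ^ 2 * 42000000) :=
        mul_le_mul hcle hule (by omega) (by norm_num)
    _ ≤ 10 ^ 60 := by norm_num

end Pool.Agent.H132.EndPos
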