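import Pool.Agent.H132.EndPos

/-!
# Endgame: positive `Z`, `Q` small, `W > 11 Z`
-/

set_option autoImplicit false

namespace Pool.Agent.H132.EndPos

/-- The inequalities of the case `Q` small. -/
structure BB (x y z P Q w : ℝ) : Prop where
  z5 : 5.99 * y < z
  U : w ≤ (6 + 10 * y) * Q
  L : 6 * Q ≤ w + Q ^ 2 + 1000 * y ^ 2
  F : w + 212 * y ^ 2 + 300 * y ^ 3 ≤ (6 + 9 * y) * Q
  F' : - 212.5 * y ^ 2 ≤ w
  Pl : x ^ 2 * (1 + 2 * y) ≤ P
  Py : P * y ^ 2 ≤ 1 + 2.1 * y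
  Qs : Q < 1 / 10 ^ 4

lemma b1_B {B y z Q w : ℝ} (hy : 0 < y) (hy2 : y ≤ 0.000001) (hz : 5.99 * y < z)
    (hz6 : z ≤ 6.0001 * y) (hQ : 0 < Q) (hQs : Q < 1 / 10 ^ 4) (hU : w ≤ (6 + 10 * y) * Q)
    (hw : 11 * z < w) (hB : B * Q = (w - 11 * z) * (36 + 25 * z - w) ^ 2) : B < 7776 := by
  by_contra hcon
  push Not at hcon
  have hQs' : Q < 0.0001 := by refine hQs.trans_le ?_; norm_num
  have h0 : 7776 * Q ≤ B * Q := mul_le_mul_of_nonneg_right hcon hQ.le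
  have hw1 : w ≤ 0.001 := by nlinarith
  have h1 : (36 + 25 * z - w) ^ 2 ≤ (36 + 14 * z) ^ 2 := by
    apply pow_le_pow_left₀ <;> linarith
  have h2 : (36 + 14 * z) ^ 2 ≤ 1296 + 1100 * z := by nlinarith
  have h3 : (w - 11 * z) * (36 + 25 * z - w) ^ 2 ≤ ((6 + 10 * y) * Q - 11 * z) * (1296 + 1100 * z) :=
    mul_le_mul (by linarith) (h1.trans h2) (sq_nonneg _) (by linarith)
  have h4 : z * Q ≤ z * 0.0001 := mul_le_mul_of_nonneg_left hQs'.le (by linarith)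
  have h5 : y * Q ≤ y * 0.0001 := mul_le_mul_of_nonneg_left hQs'.le (by linarith)
  have h6 : (y * Q) * z ≤ (y * Q) * 1 := mul_le_mul_of_nonneg_left (by linarith) (by positivity)
  nlinarith [sq_nonneg z]

lemma b1_Q {B y z Q w : ℝ} (hy : 0 < y) (hy2 : y ≤ 0.000001) (hz : 5.99 * y < z)
    (hz6 : z ≤ 6.0001 * y) (hQ : 0 < Q) (hQs : Q < 1 / 10 ^ 4) (hU : w ≤ (6 + 10 * y) * Q)
    (hL : 6 * Q ≤ w + Q ^ 2 + 1000 * y ^ 2)
    (hB : B * Q = (w - 11 * z) * (36 + 25 * z - w) ^ 2) (hB2 : B ≤ 7775) : Q ≤ 145000 * y := by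
  have hQs' : Q < 0.0001 := by refine hQs.trans_le ?_; norm_num
  have hy22 : 1000 * y ^ 2 ≤ 0.001 * y := by nlinarith
  have h0 : B * Q ≤ 7775 * Q := mul_le_mul_of_nonneg_right hB2 hQ.le
  have hQ2 : Q ^ 2 ≤ 0.0001 * Q := by nlinarith
  rcases le_or_gt (6 * Q - Q ^ 2 - 1000 * y ^ 2 - 11 * z) 0 with h | h
  · nlinarith
  · have hyQ : y * Q ≤ 0.000001 * Q := mul_le_mul_of_nonneg_right hy2 hQ.le
    have hw1 : w ≤ 6.0001 * Q := by linarith
    have h1 : 1296 - 432.0072 * Q ≤ (36 + 25 * z - w) ^ 2 := by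
      have e1 : (36 - 6.0001 * Q) ^ 2 ≤ (36 + 25 * z - w) ^ 2 := by
        apply pow_le_pow_left₀ <;> linarith
      nlinarith
    have h2 : (6 * Q - Q ^ 2 - 1000 * y ^ 2 - 11 * z) * (1296 - 432.0072 * Q) ≤
        (w - 11 * z) * (36 + 25 * z - w) ^ 2 :=
      mul_le_mul (by linarith) h1 (by linarith) (by linarith)
    have h3 : 0 ≤ Q * (Q ^ 2 + 1000 * y ^ 2 + 11 * z) := by
      have : 0 < z := by linarith
      positivity
    nlinarith

/-- The error term. -/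
lemma b1_E {B y z Q w u W Z : ℝ} (hy : 0 < y) (hy2 : y ≤ 1 / 10 ^ 20) (hz : 5.99 * y < z)
    (hz6 : z ≤ 6.0001 * y) (hQ : 0 < Q) (hU : w ≤ (6 + 10 * y) * Q)
    (hL : 6 * Q ≤ w + Q ^ 2 + 1000 * y ^ 2) (hu : 0 < u) (hw : 11 * z < w)
    (hB : B * Q = (w - 11 * z) * (36 + 25 * z - w) ^ 2) (hB2 : B ≤ 7775) (hB0 : 0 ≤ B)
    (hQy : Q ≤ 145000 * y) (hW : W = w * u) (hZ : Z = z * u) (hZ88 : Z ≤ 88) :
    W ≤ 13100000 ∧ |(7776 - B) * W - 85536 * Z| < 1 := by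
  have hy3 : y ≤ 0.000001 := hy2.trans (by norm_num)
  have hyu : y * u ≤ 14.7 := by
    have : 5.99 * y * u ≤ z * u := mul_le_mul_of_nonneg_right hz.le hu.le
    rw [← hZ] at this
    linarith
  have hyQ : y * Q ≤ 0.000001 * Q := mul_le_mul_of_nonneg_right hy3 hQ.le
  have hw1 : w ≤ 870020 * y := by linarith
  have hWle : W ≤ 13100000 := by
    have : w * u ≤ 870020 * y * u := mul_le_mul_of_nonneg_right hw1 hu.le
    rw [hW]; linarith
  refine ⟨hWle, ?_⟩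
  have hE : (7776 - B) * W - 85536 * Z = 6 * (W - 11 * Z) * ((w - 25 * z) * (72 + 25 * z - w)) -
      B * ((w - 6 * Q) * u) := by
    rw [hW, hZ]
    linear_combination (-6 * u) * hB
  rw [hE]
  have h1 : |w - 25 * z| ≤ 870020 * y := by
    rw [abs_le]; constructor <;> linarith
  have h2 : |72 + 25 * z - w| ≤ 73 := by
    rw [abs_le]; constructor <;> linarith
  have h3 : |(w - 25 * z) * (72 + 25 * z - w)| ≤ 870020 * y * 73 := by
    rw [abs_mul]; exact mul_le_mul h1 h2 (abs_nonneg _) (by positivity)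
  have hWZ0 : 0 ≤ W - 11 * Z := by
    rw [hW, hZ]
    have : 0 ≤ (w - 11 * z) * u := mul_nonneg (by linarith) hu.le
    linarith
  have hZ0 : 0 ≤ Z := by rw [hZ]; exact mul_nonneg (by linarith) hu.le
  have h4 : |6 * (W - 11 * Z)| ≤ 6 * 13100000 := by
    rw [abs_of_nonneg (by linarith)]; linarith
  have h5 : |6 * (W - 11 * Z) * ((w - 25 * z) * (72 + 25 * z - w))| ≤
      6 * 13100000 * (870020 * y * 73) := by
    rw [abs_mul]; exact mul_le_mul h4 h3 (abs_nonneg _) (by norm_num)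
  have h6 : |w - 6 * Q| ≤ 22000000000 * y ^ 2 := by
    have e1 : Q ^ 2 ≤ (145000 * y) ^ 2 := pow_le_pow_left₀ hQ.le hQy 2
    have e2 : y * Q ≤ y * (145000 * y) := mul_le_mul_of_nonneg_left hQy hy.le
    rw [abs_le]; constructor <;> nlinarith [sq_nonneg y]
  have h7 : |(w - 6 * Q) * u| ≤ 22000000000 * (14.7 * y) := by
    rw [abs_mul, abs_of_pos hu]
    have e1 : |w - 6 * Q| * u ≤ 22000000000 * y ^ 2 * u := mul_le_mul_of_nonneg_right h6 hu.le
    have e2 : y * (y * u) ≤ y * 14.7 := mul_le_mul_of_nonneg_left hyu hy.le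
    nlinarith
  have h8 : |B * ((w - 6 * Q) * u)| ≤ 7775 * (22000000000 * (14.7 * y)) := by
    rw [abs_mul, abs_of_nonneg hB0]
    exact mul_le_mul hB2 h7 (abs_nonneg _) (by norm_num)
  have h9 := abs_sub (6 * (W - 11 * Z) * ((w - 25 * z) * (72 + 25 * z - w))) (B * ((w - 6 * Q) * u))
  have h10 : 10 ^ 17 * y < 1 := by
    have : 10 ^ 17 * y ≤ 10 ^ 17 * (1 / 10 ^ 20) := mul_le_mul_of_nonneg_left hy2 (by norm_num)
    refine this.trans_lt ?_; norm_num
  linarith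

variable {u c k a b Z h a1 b7 : ℤ} {x y z P Q w : ℝ}

lemma BD.cZbig (D : BD u c k a b Z h a1 b7 x y z P Q w) (E : BB x y z P Q w) :
    5 * 10 ^ 20 ≤ c * Z := by
  have hcu : (c : ℝ) * Z = P * z := by
    rw [D.Pu, ← D.zu]; ring
  have h1 : (5 * 10 ^ 20 : ℝ) ≤ c * Z := by
    rw [hcu]
    have hy := D.hy
    have hx := D.hx
    have e1 : x ^ 2 ≤ P := by
      have := E.Pl
      nlinarith [sq_nonneg x]
    have e2 : x ^ 2 * (5.99 * y) ≤ P * z :=
      mul_le_mul e1 E.z5.le (by positivity) (by nlinarith [sq_nonneg x])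
    have e3 : x ^ 2 * (5.99 * y) = 5.99 * x * (x * y) := by ring
    rw [e3, D.hxy] at e2
    linarith
  exact_mod_cast h1

lemma odd_aux {k Z h : ℤ} (hk : ¬ (2 : ℤ) ∣ k) (h1 : 486 * k = Z ^ 3 * h ^ 2) : False := by
  rcases Int.even_or_odd' Z with ⟨m, hm | hm⟩
  · have h2 : 486 * k = 8 * (m ^ 3 * h ^ 2) := by rw [h1, hm]; ring
    omega
  · rcases Int.even_or_odd' h with ⟨n, hn | hn⟩
    · have h2 : 486 * k = 4 * (Z ^ 3 * n ^ 2) := by rw [h1, hn]; ring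
      omega
    · have h2 : 486 * k = 2 * (4 * m ^ 3 + 6 * m ^ 2 + 3 * m + (Z ^ 3) * (2 * n ^ 2 + 2 * n)) + 1 := by
        rw [h1, hn]
        have : Z ^ 3 = 2 * (4 * m ^ 3 + 6 * m ^ 2 + 3 * m) + 1 := by rw [hm]; ring
        linear_combination this
      omega

/-- Case `W > 11 Z`. -/
lemma BD.caseB1 (D : BD u c k a b Z h a1 b7 x y z P Q w) (E : BB x y z P Q w)
    (hW : 11 * Z < 36 * u + 20 * Z - c * Z ^ 2) : False := by
  have hu := D.up
  have hZ := D.hZ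
  have hh := D.hh
  have hk := D.hk
  have ha := D.ha
  have hb := D.hb
  have hy := D.hy
  have hx := D.hx
  have hz := D.hz
  have hQ := D.hQ
  have hz6 := D.hz6
  have hy2 : y ≤ 1 / 10 ^ 20 := by
    rw [le_div_iff₀ (by positivity)]
    have e1 : 10 ^ 20 * y ≤ x * y := mul_le_mul_of_nonneg_right hx hy.le
    rw [D.hxy] at e1; linarith
  have hy3 : y ≤ 0.000001 := hy2.trans (by norm_num)
  set W : ℤ := 36 * u + 20 * Z - c * Z ^ 2 with hWdef
  obtain ⟨b2, hb2⟩ : ∃ b2 : ℤ, b2 = 12 * a1 - Z * b7 := ⟨_, rfl⟩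
  have hkb : k * b2 = W - 11 * Z := by rw [hb2, D.kW]
  have hb21 : 1 ≤ b2 := by
    by_contra hcon
    have : k * b2 ≤ 0 := mul_nonpos_of_nonneg_of_nonpos (by omega) (by omega)
    omega
  obtain ⟨B, hB⟩ : ∃ B : ℤ, B = b2 * h ^ 2 * Z ^ 2 := ⟨_, rfl⟩
  have hB0 : 0 ≤ B := by rw [hB]; positivity
  have hBR : B * (k * (a * b) ^ 2) = (W - 11 * Z) * (36 * u + 25 * Z - W) ^ 2 := by
    have e1 : 36 * u + 25 * Z - W = Z * (c * Z + 5) := by rw [hWdef]; ring
    rw [e1, ← D.e3, ← hkb, hB]; ring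
  have hwu : (W : ℝ) = w * u := by rw [D.wu, hWdef]; push_cast; ring
  have hzu : (Z : ℝ) = z * u := D.zu.symm
  have hBQ : (B : ℝ) * Q = (w - 11 * z) * (36 + 25 * z - w) ^ 2 := by
    have e1 : (B : ℝ) * (k * (a * b) ^ 2) = (W - 11 * Z) * (36 * u + 25 * Z - W) ^ 2 := by
      exact_mod_cast hBR
    rw [← D.Qu, hwu, hzu] at e1
    have h5 : (u : ℝ) ^ 3 ≠ 0 := by positivity
    apply mul_right_cancel₀ h5
    linear_combination e1
  have hwz : 11 * z < w := by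
    have e1 : (11 : ℝ) * Z < W := by exact_mod_cast hW
    rw [hwu, hzu, ← mul_assoc] at e1
    exact lt_of_mul_lt_mul_right e1 hu.le
  have hB1 : B ≤ 7775 := by
    have e1 := b1_B hy hy3 E.z5 hz6 hQ E.Qs E.U hwz hBQ
    have e2 : B < 7776 := by exact_mod_cast e1
    omega
  have hB1R : (B : ℝ) ≤ 7775 := by exact_mod_cast hB1
  have hQy := b1_Q hy hy3 E.z5 hz6 hQ E.Qs E.U E.L hBQ hB1R
  have hhZ : h ^ 2 * Z ^ 2 ≤ 7775 := by
    have e1 : 1 * (h ^ 2 * Z ^ 2) ≤ b2 * (h ^ 2 * Z ^ 2) :=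
      mul_le_mul_of_nonneg_right hb21 (by positivity)
    have e2 : B = b2 * (h ^ 2 * Z ^ 2) := by rw [hB]; ring
    linarith
  have hZ88 : Z ≤ 88 := by
    by_contra hcon
    have e1 : 89 ^ 2 ≤ Z ^ 2 := pow_le_pow_left₀ (by norm_num) (by omega) 2
    have e2 : 1 ≤ h ^ 2 := one_le_pow₀ hh
    nlinarith
  have hh88 : h ≤ 88 := by
    by_contra hcon
    have e1 : 89 ^ 2 ≤ h ^ 2 := pow_le_pow_left₀ (by norm_num) (by omega) 2
    have e2 : 1 ≤ Z ^ 2 := one_le_pow₀ hZ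
    nlinarith
  have hZ88R : (Z : ℝ) ≤ 88 := by exact_mod_cast hZ88
  obtain ⟨hW1, hE1⟩ := b1_E hy hy2 E.z5 hz6 hQ E.U E.L hu hwz hBQ hB1R (by exact_mod_cast hB0) hQy
    hwu hzu hZ88R
  have hW2 : W ≤ 13100000 := by exact_mod_cast hW1
  have hE2 : |(7776 - B) * W - 85536 * Z| < 1 := by exact_mod_cast hE1
  have hE3 : (7776 - B) * W = 85536 * Z := by
    have := Int.abs_lt_one_iff.1 hE2
    omega
  have hcZ := D.cZbig E
  have hda := D.aW
  have hdb := D.bW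
  rw [← hWdef] at hda hdb
  by_cases h5 : 5 * W - 89 * Z = 0
  · -- `5 W = 89 Z`
    have e1 : Z * ((7776 - B) * 89) = Z * 427680 := by
      linear_combination 5 * hE3 - (7776 - B) * h5
    have e2 := mul_left_cancel₀ (by omega : Z ≠ 0) e1
    omega
  by_cases h6 : W - 16 * Z = 0
  · -- `W = 16 Z`
    have e1 : Z * ((7776 - B) * 16) = Z * 85536 := by
      linear_combination hE3 - (7776 - B) * h6
    have e2 := mul_left_cancel₀ (by omega : Z ≠ 0) e1
    have e3 : B = 2430 := by omega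
    have e4 : k * b2 = 5 * Z := by omega
    have e5 : 486 * k = Z ^ 3 * h ^ 2 := by
      have : 5 * (486 * k) = 5 * (Z ^ 3 * h ^ 2) := by
        have e6 : k * B = k * b2 * h ^ 2 * Z ^ 2 := by rw [hB]; ring
        rw [e4, e3] at e6
        linear_combination e6
      omega
    have hk2 : ¬ (2 : ℤ) ∣ k := by
      intro hk2
      have f1 : ¬ (2 : ℤ) ∣ u := by
        intro hu2
        have := D.cku.isUnit_of_dvd' hk2 hu2
        rcases Int.isUnit_iff.1 this with h | h <;> omega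
      have f2 : (2 : ℤ) ∣ 3 * u + Z := by rw [← D.e1]; exact hk2.mul_right _
      have f3 : (2 : ℤ) ∣ c * Z + 3 := by rw [← D.e2]; exact hk2.mul_right _
      have f4 : c * Z ^ 2 = 36 * u + 4 * Z := by omega
      have f5 : (2 : ℤ) ∣ c * Z ^ 2 := by rw [f4]; omega
      have f6 : ¬ (2 : ℤ) ∣ Z := by omega
      have f7 : ¬ (2 : ℤ) ∣ c * Z := by omega
      have f8 : c * Z ^ 2 = (c * Z) * Z := by ring
      rw [f8] at f5
      rcases (Int.prime_two.dvd_mul).1 f5 with g | g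
      · exact f7 g
      · exact f6 g
    exact odd_aux hk2 e5
  -- generic case
  have ha' : a ≤ 66000000 := by
    have e1 := Int.le_of_dvd (abs_pos.2 h5) ((dvd_abs a _).2 hda)
    have e2 : |5 * W - 89 * Z| ≤ 66000000 := by
      rw [abs_le]; constructor <;> omega
    omega
  have hb' : b ≤ 14000000 := by
    have e1 := Int.le_of_dvd (abs_pos.2 h6) ((dvd_abs b _).2 hdb)
    have e2 : |W - 16 * Z| ≤ 14000000 := by
      rw [abs_le]; constructor <;> omega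
    omega
  have hab : a * b ≤ 66000000 * 14000000 := mul_le_mul ha' hb' (by omega) (by norm_num)
  have habh : a * b * h ≤ 66000000 * 14000000 * 88 := mul_le_mul hab hh88 (by omega) (by norm_num)
  rw [D.e3] at habh
  omega

end Pool.Agent.H132.EndPos
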