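import Pool.Agent.H132.EndPos2

/-!
# Endgame: positive `Z`, `Q` small, `W ≤ 11 Z`
-/

set_option autoImplicit false

namespace Pool.Agent.H132.EndPos

variable {u c k a b Z h a1 b7 : ℤ} {x y z P Q w : ℝ}

/-- `c Z` is at most about `6 x`. -/
lemma BD.cZle (D : BD u c k a b Z h a1 b7 x y z P Q w) (E : BB x y z P Q w) :
    (c : ℝ) * Z ≤ 6.1 * x := by
  have hcu : (c : ℝ) * Z = P * z := by
    rw [D.Pu, ← D.zu]; ring
  have hy := D.hy
  have hx := D.hx
  have hxy := D.hxy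
  have hy3 : y ≤ 0.000001 := by
    have e1 : 10 ^ 20 * y ≤ x * y := mul_le_mul_of_nonneg_right hx hy.le
    rw [D.hxy] at e1
    nlinarith
  have hP0 : 0 ≤ P := by
    have := E.Pl
    have h1 : 0 ≤ x ^ 2 * (1 + 2 * y) := by positivity
    linarith
  rw [hcu]
  have h1 : P * z ≤ P * (6.0001 * y) := mul_le_mul_of_nonneg_left D.hz6 hP0
  have h2 : P * y = P * y ^ 2 * x := by linear_combination (-P * y) * hxy
  have h3 : P * y ^ 2 * x ≤ 1.00001 * x := mul_le_mul_of_nonneg_right (by linarith [E.Py]) (by linarith)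
  nlinarith

/-- `u` in terms of `Z` and `x`. -/
lemma BD.ubounds (D : BD u c k a b Z h a1 b7 x y z P Q w) (E : BB x y z P Q w) :
    (Z : ℝ) * x ≤ 6.0001 * u ∧ 5.99 * u ≤ Z * x := by
  have hu := D.up
  have hxy := D.hxy
  have h1 : (Z : ℝ) * x = (z * x) * u := by rw [← D.zu]; ring
  have hx : 0 < x := by linarith [D.hx]
  have h2 : z * x ≤ 6.0001 := by
    have : z * x ≤ 6.0001 * y * x := mul_le_mul_of_nonneg_right D.hz6 hx.le
    nlinarith
  have h3 : 5.99 ≤ z * x := by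
    have : 5.99 * y * x ≤ z * x := mul_le_mul_of_nonneg_right E.z5.le hx.le
    nlinarith
  rw [h1]
  constructor
  · exact mul_le_mul_of_nonneg_right h2 hu.le
  · exact mul_le_mul_of_nonneg_right h3 hu.le

lemma BD.ysmall (D : BD u c k a b Z h a1 b7 x y z P Q w) : y ≤ 1 / 10 ^ 20 := by
  rw [le_div_iff₀ (by positivity)]
  have e1 : 10 ^ 20 * y ≤ x * y := mul_le_mul_of_nonneg_right D.hx D.hy.le
  rw [D.hxy] at e1; linarith

/-- The right hand side of `R = k (ab)^2` from bounds. -/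
lemma R_le {k a b K A B : ℤ} (hk : 1 ≤ k) (ha : 1 ≤ a) (hb : 1 ≤ b) (hK : k ≤ K) (hA : a ≤ A)
    (hB : b ≤ B) : k * (a * b) ^ 2 ≤ K * (A * B) ^ 2 := by
  have h1 : a * b ≤ A * B := mul_le_mul hA hB (by omega) (by omega)
  have h2 : (a * b) ^ 2 ≤ (A * B) ^ 2 := pow_le_pow_left₀ (by positivity) h1 2
  exact mul_le_mul hK h2 (by positivity) (by omega)

/-- Case `W = 11 Z`. -/
lemma BD.caseC1 (D : BD u c k a b Z h a1 b7 x y z P Q w) (E : BB x y z P Q w)
    (hW : 36 * u + 20 * Z - c * Z ^ 2 = 11 * Z) : False := by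
  have hu := D.up
  have hZ := D.hZ
  have hk := D.hk
  have hc := D.hc
  have hb7 := D.b7pos
  have hx := D.hx
  have hy := D.hy
  have hz := D.hz
  have hda := D.aW
  have hdb := D.bW
  have ha3 : a ∣ c * Z + 5 := ⟨b * h, by rw [← D.e3]; ring⟩
  have hb3 : b ∣ c * Z + 5 := ⟨a * h, by rw [← D.e3]; ring⟩
  rw [hW] at hda hdb
  have ha' : a ≤ 170 := by
    have h1 : a ∣ 170 := by
      have : (170 : ℤ) = 34 * (c * Z + 5) + c * (5 * (11 * Z) - 89 * Z) := by ring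
      rw [this]
      exact dvd_add (ha3.mul_left _) (hda.mul_left _)
    exact Int.le_of_dvd (by norm_num) h1
  have hb' : b ≤ 25 := by
    have h1 : b ∣ 25 := by
      have : (25 : ℤ) = 5 * (c * Z + 5) + c * (11 * Z - 16 * Z) := by ring
      rw [this]
      exact dvd_add (hb3.mul_left _) (hdb.mul_left _)
    exact Int.le_of_dvd (by norm_num) h1
  have hk' : k ≤ c * Z + 3 := by
    rw [← D.e2]
    nlinarith
  have hR := R_le hk D.ha D.hb hk' ha' hb'
  have hR2 : (k : ℝ) * (a * b) ^ 2 ≤ (c * Z + 3) * (170 * 25) ^ 2 := by exact_mod_cast hR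
  rw [← D.Qu] at hR2
  have hcZ := D.cZle E
  obtain ⟨hu1, hu2⟩ := D.ubounds E
  have hZR : (1 : ℝ) ≤ Z := by exact_mod_cast hZ
  have hxu : x ≤ 6.0001 * u := by
    have : 1 * x ≤ Z * x := mul_le_mul_of_nonneg_right hZR (by linarith)
    linarith
  -- `Q u ≥ 1`
  have hw : w * u = 11 * Z := by
    rw [D.wu]; exact_mod_cast hW
  have hy3 : y ≤ 0.000001 := D.ysmall.trans (by norm_num)
  have hQu : 1 ≤ Q * u := by
    have h1 : w * u ≤ (6 + 10 * y) * Q * u := mul_le_mul_of_nonneg_right E.U hu.le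
    have h2 : 0 < Q * u := mul_pos D.hQ hu
    have h3 : y * (Q * u) ≤ 0.000001 * (Q * u) := mul_le_mul_of_nonneg_right hy3 h2.le
    nlinarith
  have h4 : (x / 7) ^ 2 ≤ Q * u ^ 3 := by
    have h5 : (x / 7) ^ 2 ≤ (u : ℝ) ^ 2 := pow_le_pow_left₀ (by linarith) (by linarith) 2
    have h6 : 1 * (u : ℝ) ^ 2 ≤ (Q * u) * u ^ 2 := mul_le_mul_of_nonneg_right hQu (sq_nonneg _)
    nlinarith
  have h7 : (x / 7) ^ 2 ≤ (6.1 * x + 3) * (170 * 25) ^ 2 := by
    refine h4.trans (hR2.trans ?_)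
    apply mul_le_mul_of_nonneg_right _ (by norm_num)
    linarith
  nlinarith

/-- Case `1 ≤ W < 11 Z`. -/
lemma BD.caseC2 (D : BD u c k a b Z h a1 b7 x y z P Q w) (E : BB x y z P Q w)
    (hW0 : 1 ≤ 36 * u + 20 * Z - c * Z ^ 2)
    (hW : 36 * u + 20 * Z - c * Z ^ 2 < 11 * Z) : False := by
  have hu := D.up
  have hZ := D.hZ
  have hk := D.hk
  have hh := D.hh
  have hx := D.hx
  have hy := D.hy
  have hQ := D.hQ
  have hda := D.aW
  have hdb := D.bW
  have hkW := D.kW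
  have hy3 : y ≤ 0.000001 := D.ysmall.trans (by norm_num)
  obtain ⟨hu1, hu2⟩ := D.ubounds E
  have hZR : (1 : ℝ) ≤ Z := by exact_mod_cast hZ
  have hZ0 : (0 : ℝ) < Z := by linarith
  set W : ℤ := 36 * u + 20 * Z - c * Z ^ 2 with hWdef
  obtain ⟨b2, hb2⟩ : ∃ b2 : ℤ, b2 = Z * b7 - 12 * a1 := ⟨_, rfl⟩
  have hkb : k * b2 = 11 * Z - W := by rw [hb2]; linarith
  have hb21 : 1 ≤ b2 := by
    by_contra hcon
    have : k * b2 ≤ 0 := mul_nonpos_of_nonneg_of_nonpos (by omega) (by omega)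
    omega
  have hk' : k ≤ 11 * Z := by nlinarith
  have ha' : a ≤ 89 * Z := by
    have h1 : a ∣ 89 * Z - 5 * W := by
      have : 89 * Z - 5 * W = -(5 * W - 89 * Z) := by ring
      rw [this]; exact hda.neg_right
    have := Int.le_of_dvd (by linarith) h1
    linarith
  have hb' : b ≤ 16 * Z := by
    have h1 : b ∣ 16 * Z - W := by
      have : 16 * Z - W = -(W - 16 * Z) := by ring
      rw [this]; exact hdb.neg_right
    have := Int.le_of_dvd (by linarith) h1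
    linarith
  -- lower bound of `R`
  have hwu : w * u = W := by rw [D.wu, hWdef]; push_cast; ring
  have hQu : 1 / 7 ≤ Q * u := by
    have h1 : w * u ≤ (6 + 10 * y) * Q * u := mul_le_mul_of_nonneg_right E.U hu.le
    have h2 : 0 < Q * u := mul_pos D.hQ hu
    have h3 : y * (Q * u) ≤ 0.000001 * (Q * u) := mul_le_mul_of_nonneg_right hy3 h2.le
    have h4 : (1 : ℝ) ≤ W := by exact_mod_cast hW0
    nlinarith
  have hRlow : (1 / 7) * (u : ℝ) ^ 2 ≤ Q * u ^ 3 := by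
    have h6 : (1 / 7) * (u : ℝ) ^ 2 ≤ (Q * u) * u ^ 2 :=
      mul_le_mul_of_nonneg_right hQu (sq_nonneg _)
    nlinarith
  -- upper bound of `R`
  have hBR : b2 * h ^ 2 * Z ^ 2 * (k * (a * b) ^ 2) =
      (11 * Z - W) * (36 * u + 25 * Z - W) ^ 2 := by
    have e1 : 36 * u + 25 * Z - W = Z * (c * Z + 5) := by rw [hWdef]; ring
    rw [e1, ← D.e3, ← hkb]; ring
  have hup1 : Z ^ 2 * (k * (a * b) ^ 2) ≤ 11 * Z * (36 * u + 25 * Z) ^ 2 := by
    have e1 : 1 * (Z ^ 2 * (k * (a * b) ^ 2)) ≤ (b2 * h ^ 2) * (Z ^ 2 * (k * (a * b) ^ 2)) := by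
      apply mul_le_mul_of_nonneg_right _ (by positivity)
      have : 1 ≤ h ^ 2 := one_le_pow₀ hh
      nlinarith
    have e2 : (36 * u + 25 * Z - W) ^ 2 ≤ (36 * u + 25 * Z) ^ 2 :=
      pow_le_pow_left₀ (by nlinarith [D.hu]) (by linarith) 2
    have e3 : (11 * Z - W) * (36 * u + 25 * Z - W) ^ 2 ≤ 11 * Z * (36 * u + 25 * Z) ^ 2 :=
      mul_le_mul (by linarith) e2 (sq_nonneg _) (by omega)
    rw [← hBR] at e3
    linarith
  have hup2 : (Z : ℝ) ^ 2 * (Q * u ^ 3) ≤ 11 * Z * (36 * u + 25 * Z) ^ 2 := by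
    rw [D.Qu]; exact_mod_cast hup1
  have hZu : (Z : ℝ) ≤ 0.001 * u := by nlinarith
  have hup3 : (36 * u + 25 * Z : ℝ) ^ 2 ≤ 1302 * u ^ 2 := by
    have : (36 * u + 25 * Z : ℝ) ^ 2 ≤ (36.03 * u) ^ 2 :=
      pow_le_pow_left₀ (by linarith) (by linarith) 2
    nlinarith
  have hZbound : (Z : ℝ) ≤ 110000 := by
    have e1 : (Z : ℝ) ^ 2 * ((1 / 7) * (u : ℝ) ^ 2) ≤ 11 * Z * (1302 * u ^ 2) := by
      refine (mul_le_mul_of_nonneg_left hRlow (sq_nonneg _)).trans (hup2.trans ?_)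
      exact mul_le_mul_of_nonneg_left hup3 (by linarith)
    have e2 : (Z : ℝ) * (Z * u ^ 2) ≤ 110000 * (Z * u ^ 2) := by
      have : 0 ≤ (Z : ℝ) * u ^ 2 := by positivity
      nlinarith
    exact le_of_mul_le_mul_right e2 (by positivity)
  have hZb : Z ≤ 110000 := by exact_mod_cast hZbound
  have hR := R_le hk D.ha D.hb (by omega : k ≤ 1210000) (by omega : a ≤ 9790000)
    (by omega : b ≤ 1760000)
  have hR2 : (k : ℝ) * (a * b) ^ 2 ≤ 1210000 * (9790000 * 1760000) ^ 2 := by exact_mod_cast hR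
  rw [← D.Qu] at hR2
  have hxu : x ≤ 6.0001 * u := by
    have : 1 * x ≤ Z * x := mul_le_mul_of_nonneg_right hZR (by linarith)
    linarith
  have h4 : (10 ^ 19 : ℝ) ^ 2 ≤ (u : ℝ) ^ 2 := pow_le_pow_left₀ (by norm_num) (by linarith) 2
  have h5 : (1 / 7) * (10 ^ 19 : ℝ) ^ 2 ≤ 1210000 * (9790000 * 1760000) ^ 2 := by linarith
  norm_num at h5

/-- Case `W = 0`. -/
lemma BD.caseC3 (D : BD u c k a b Z h a1 b7 x y z P Q w) (E : BB x y z P Q w)
    (hW : 36 * u + 20 * Z - c * Z ^ 2 = 0) : False := by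
  have hu := D.up
  have hZ := D.hZ
  have hk := D.hk
  have hx := D.hx
  have hy := D.hy
  have hQ := D.hQ
  have hda := D.aW
  have hdb := D.bW
  have hkW := D.kW
  have hy3 : y ≤ 0.000001 := D.ysmall.trans (by norm_num)
  obtain ⟨hu1, hu2⟩ := D.ubounds E
  have hZR : (1 : ℝ) ≤ Z := by exact_mod_cast hZ
  have ha3 : a ∣ c * Z + 5 := ⟨b * h, by rw [← D.e3]; ring⟩
  have hb3 : b ∣ c * Z + 5 := ⟨a * h, by rw [← D.e3]; ring⟩
  have hk3 : k ∣ c * Z + 3 := ⟨b7, D.e2.symm⟩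
  rw [hW] at hda hdb hkW
  have hk' : k ≤ 33 := by
    have h1 : k ∣ 33 := by
      have : (33 : ℤ) = 11 * (c * Z + 3) + c * (0 - 11 * Z) := by ring
      rw [this]
      exact dvd_add (hk3.mul_left _) (Dvd.dvd.mul_left ⟨_, hkW.symm⟩ _)
    exact Int.le_of_dvd (by norm_num) h1
  have ha' : a ≤ 445 := by
    have h1 : a ∣ 445 := by
      have : (445 : ℤ) = 89 * (c * Z + 5) + c * (5 * 0 - 89 * Z) := by ring
      rw [this]
      exact dvd_add (ha3.mul_left _) (hda.mul_left _)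
    exact Int.le_of_dvd (by norm_num) h1
  have hb' : b ≤ 80 := by
    have h1 : b ∣ 80 := by
      have : (80 : ℤ) = 16 * (c * Z + 5) + c * (0 - 16 * Z) := by ring
      rw [this]
      exact dvd_add (hb3.mul_left _) (hdb.mul_left _)
    exact Int.le_of_dvd (by norm_num) h1
  have hR := R_le hk D.ha D.hb hk' ha' hb'
  have hR2 : (k : ℝ) * (a * b) ^ 2 ≤ 33 * (445 * 80) ^ 2 := by exact_mod_cast hR
  rw [← D.Qu] at hR2
  have hw0 : w = 0 := by
    have h1 : w * u = 0 := by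
      rw [D.wu]; exact_mod_cast hW
    rcases mul_eq_zero.1 h1 with h | h
    · exact h
    · exact absurd h hu.ne'
  have hQl : 34 * y ^ 2 ≤ Q := by
    have h1 := E.F
    rw [hw0] at h1
    have h2 : y * Q ≤ 0.000001 * Q := mul_le_mul_of_nonneg_right hy3 hQ.le
    have h3 : 0 < y ^ 3 := by positivity
    nlinarith
  have hxu : x ≤ 6.0001 * u := by
    have : 1 * x ≤ Z * x := mul_le_mul_of_nonneg_right hZR (by linarith)
    linarith
  have h4 : (x / 7) ^ 3 ≤ (u : ℝ) ^ 3 := pow_le_pow_left₀ (by linarith) (by linarith) 3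
  have h5 : (34 * y ^ 2) * (x / 7) ^ 3 ≤ Q * u ^ 3 :=
    mul_le_mul hQl h4 (by positivity) hQ.le
  have h6 : (34 * y ^ 2) * (x / 7) ^ 3 = 34 / 343 * x := by
    have : (34 * y ^ 2) * (x / 7) ^ 3 = 34 / 343 * x * (x * y) ^ 2 := by ring
    rw [this, D.hxy]; ring
  rw [h6] at h5
  linarith

end Pool.Agent.H132.EndPos
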