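import Pool.Agent.H132.EndPos3

/-!
# Endgame: positive `Z`, `Q` small, `W < 0`, and the conclusion
-/

set_option autoImplicit false

namespace Pool.Agent.H132.EndPos

variable {u c k a b Z h a1 b7 : ℤ} {x y z P Q w : ℝ}

lemma R_leR {k a b K A B : ℝ} (hk : 0 ≤ k) (ha : 0 ≤ a) (hb : 0 ≤ b) (hK : k ≤ K) (hA : a ≤ A)
    (hB : b ≤ B) : k * (a * b) ^ 2 ≤ K * (A * B) ^ 2 := by
  have h1 : a * b ≤ A * B := mul_le_mul hA hB hb (ha.trans hA)
  have h2 : (a * b) ^ 2 ≤ (A * B) ^ 2 := pow_le_pow_left₀ (by positivity) h1 2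
  exact mul_le_mul hK h2 (by positivity) (hk.trans hK)

/-- Case `W < 0`. -/
lemma BD.caseC4 (D : BD u c k a b Z h a1 b7 x y z P Q w) (E : BB x y z P Q w)
    (hW : 36 * u + 20 * Z - c * Z ^ 2 < 0) : False := by
  have hu := D.up
  have hZ := D.hZ
  have hk := D.hk
  have ha := D.ha
  have hb := D.hb
  have hc := D.hc
  have hx := D.hx
  have hy := D.hy
  have hQ := D.hQ
  have hda := D.aW
  have hdb := D.bW
  have hkW := D.kW
  have hy3 : y ≤ 0.000001 := D.ysmall.trans (by norm_num)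
  have hcZ := D.cZle E
  have ha3 : a ∣ c * Z + 5 := ⟨b * h, by rw [← D.e3]; ring⟩
  have hb3 : b ∣ c * Z + 5 := ⟨a * h, by rw [← D.e3]; ring⟩
  have hk3 : k ∣ c * Z + 3 := ⟨b7, D.e2.symm⟩
  obtain ⟨j, hj⟩ : ∃ j : ℤ, j = -(36 * u + 20 * Z - c * Z ^ 2) := ⟨_, rfl⟩
  have hj1 : 1 ≤ j := by omega
  have hWj : 36 * u + 20 * Z - c * Z ^ 2 = -j := by omega
  rw [hWj] at hda hdb hkW
  have hwu : w * u = -(j : ℝ) := by
    rw [D.wu]
    have : (36 * u + 20 * Z - c * Z ^ 2 : ℝ) = ((36 * u + 20 * Z - c * Z ^ 2 : ℤ) : ℝ) := by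
      push_cast; ring
    rw [this, hWj]; push_cast; ring
  have hPpos : 0 < P := by
    rw [D.Pu]
    have : (0 : ℝ) < c := by exact_mod_cast (by omega : 0 < c)
    positivity
  have hwP : w * P = -((c * j : ℤ) : ℝ) := by
    rw [D.Pu]; push_cast; linear_combination (c : ℝ) * hwu
  -- `J ≤ 212`
  have hJ : c * j ≤ 212 := by
    have h1 : -w * P ≤ 212.5 * y ^ 2 * P := mul_le_mul_of_nonneg_right (by linarith [E.F']) hPpos.le
    have h2 : ((c * j : ℤ) : ℝ) < 213 := by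
      have h3 : 212.5 * y ^ 2 * P = 212.5 * (P * y ^ 2) := by ring
      have h4 := E.Py
      nlinarith
    have h3 : c * j < 213 := by exact_mod_cast h2
    omega
  have hJ1 : 1 ≤ c * j := by nlinarith
  have hc' : c ≤ 212 := by nlinarith
  have hj' : j ≤ 212 := by nlinarith
  -- lower bound of `Q`
  have hQl : 100 * y ^ 3 ≤ Q := by
    have h1 : -w * (1 + 2 * y) ≤ 212 * y ^ 2 := by
      have hw0 : 0 ≤ -w := by
        by_contra hcon
        push Not at hcon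
        have h5 : (1 : ℝ) ≤ ((c * j : ℤ) : ℝ) := by exact_mod_cast hJ1
        nlinarith
      have h2 : -w * (x ^ 2 * (1 + 2 * y)) ≤ 212 := by
        have h3 : -w * (x ^ 2 * (1 + 2 * y)) ≤ -w * P := mul_le_mul_of_nonneg_left E.Pl hw0
        have h4 : ((c * j : ℤ) : ℝ) ≤ 212 := by exact_mod_cast hJ
        linarith
      have h3 : -w * (x ^ 2 * (1 + 2 * y)) * y ^ 2 ≤ 212 * y ^ 2 :=
        mul_le_mul_of_nonneg_right h2 (sq_nonneg y)
      have h4 : -w * (x ^ 2 * (1 + 2 * y)) * y ^ 2 = -w * (1 + 2 * y) := by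
        have : -w * (x ^ 2 * (1 + 2 * y)) * y ^ 2 = -w * (1 + 2 * y) * (x * y) ^ 2 := by ring
        rw [this, D.hxy]; ring
      linarith
    have h2 : -w ≤ 212 * y ^ 2 - 424 * y ^ 3 + 848 * y ^ 4 := by
      have h3 : -w * (1 + 2 * y) ≤ (212 * y ^ 2 - 424 * y ^ 3 + 848 * y ^ 4) * (1 + 2 * y) := by
        have h4 : (212 * y ^ 2 - 424 * y ^ 3 + 848 * y ^ 4) * (1 + 2 * y) =
            212 * y ^ 2 + 1696 * y ^ 5 := by ring
        have h5 : 0 ≤ 1696 * y ^ 5 := by positivity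
        linarith
      exact le_of_mul_le_mul_right h3 (by linarith)
    have h3 : 724 * y ^ 3 - 848 * y ^ 4 ≤ (6 + 9 * y) * Q := by
      have := E.F
      linarith
    have h4 : y ^ 4 ≤ 0.000001 * y ^ 3 := by
      have : y ^ 4 = y * y ^ 3 := by ring
      rw [this]
      exact mul_le_mul_of_nonneg_right hy3 (by positivity)
    have h5 : y * Q ≤ 0.000001 * Q := mul_le_mul_of_nonneg_right hy3 hQ.le
    have h6 : 0 < y ^ 3 := by positivity
    linarith
  -- lower bound of `R`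
  have hul : x ^ 2 ≤ 212 * u := by
    have h1 : x ^ 2 ≤ P := by
      have := E.Pl
      have h2 : 0 ≤ x ^ 2 * (2 * y) := by positivity
      linarith
    have h2 : P ≤ 212 * u := by
      rw [D.Pu]
      exact mul_le_mul_of_nonneg_right (by exact_mod_cast hc') hu.le
    linarith
  have hRl : 100 / 212 ^ 3 * x ^ 3 ≤ k * (a * b) ^ 2 := by
    rw [← D.Qu]
    have h1 : (x ^ 2 / 212) ^ 3 ≤ (u : ℝ) ^ 3 := pow_le_pow_left₀ (by positivity) (by linarith) 3
    have h2 : (100 * y ^ 3) * (x ^ 2 / 212) ^ 3 ≤ Q * u ^ 3 :=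
      mul_le_mul hQl h1 (by positivity) hQ.le
    have h3 : (100 * y ^ 3) * (x ^ 2 / 212) ^ 3 = 100 / 212 ^ 3 * x ^ 3 * (x * y) ^ 3 := by ring
    rw [h3, D.hxy] at h2
    linarith
  have hRl2 : 10 ^ 14 * x ^ 2 ≤ k * (a * b) ^ 2 := by
    refine le_trans ?_ hRl
    have h1 : 10 ^ 20 * x ^ 2 ≤ x * x ^ 2 := mul_le_mul_of_nonneg_right hx (sq_nonneg x)
    have h2 : x * x ^ 2 = x ^ 3 := by ring
    rw [h2] at h1
    have h3 : (10 : ℝ) ^ 14 * x ^ 2 ≤ 100 / 212 ^ 3 * (10 ^ 20 * x ^ 2) := by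
      have : 0 ≤ x ^ 2 := sq_nonneg x
      have h4 : (10 : ℝ) ^ 14 ≤ 100 / 212 ^ 3 * 10 ^ 20 := by norm_num
      nlinarith
    refine h3.trans (mul_le_mul_of_nonneg_left h1 (by norm_num))
  -- upper bounds
  have hZx : (Z : ℝ) ≤ 6.1 * x := by
    have h1 : (1 : ℝ) * Z ≤ c * Z := by
      apply mul_le_mul_of_nonneg_right _ (by exact_mod_cast (by omega : 0 ≤ Z))
      exact_mod_cast hc
    linarith
  have hjR : (j : ℝ) ≤ 212 := by exact_mod_cast hj'
  have hkx : (k : ℝ) ≤ 70 * x := by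
    have h1 : k ≤ j + 11 * Z := by
      have h2 : k ∣ j + 11 * Z := ⟨-(12 * a1 - Z * b7), by linear_combination hkW⟩
      exact Int.le_of_dvd (by omega) h2
    have h3 : (k : ℝ) ≤ j + 11 * Z := by exact_mod_cast h1
    linarith
  have hax : (a : ℝ) ≤ 550 * x := by
    have h1 : a ≤ 5 * j + 89 * Z := by
      have h2 : a ∣ 5 * j + 89 * Z := by
        have : 5 * j + 89 * Z = -(5 * (-j) - 89 * Z) := by ring
        rw [this]; exact hda.neg_right
      exact Int.le_of_dvd (by omega) h2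
    have h3 : (a : ℝ) ≤ 5 * j + 89 * Z := by exact_mod_cast h1
    linarith
  have hbx : (b : ℝ) ≤ 100 * x := by
    have h1 : b ≤ j + 16 * Z := by
      have h2 : b ∣ j + 16 * Z := by
        have : j + 16 * Z = -((-j) - 16 * Z) := by ring
        rw [this]; exact hdb.neg_right
      exact Int.le_of_dvd (by omega) h2
    have h3 : (b : ℝ) ≤ j + 16 * Z := by exact_mod_cast h1
    linarith
  have hkd : k ∣ 33 - c * j := by
    have h1 : 33 - c * j = 11 * (c * Z + 3) + c * (-j - 11 * Z) := by ring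
    rw [h1]
    exact dvd_add (hk3.mul_left _) (Dvd.dvd.mul_left ⟨_, hkW.symm⟩ _)
  have had : a ∣ 445 - 5 * (c * j) := by
    have h1 : 445 - 5 * (c * j) = 89 * (c * Z + 5) + c * (5 * (-j) - 89 * Z) := by ring
    rw [h1]
    exact dvd_add (ha3.mul_left _) (hda.mul_left _)
  have hbd : b ∣ 80 - c * j := by
    have h1 : 80 - c * j = 16 * (c * Z + 5) + c * ((-j) - 16 * Z) := by ring
    rw [h1]
    exact dvd_add (hb3.mul_left _) (hdb.mul_left _)
  set J := c * j with hJdef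
  have hk0 : (0 : ℝ) ≤ k := by exact_mod_cast (by omega : 0 ≤ k)
  have ha0 : (0 : ℝ) ≤ a := by exact_mod_cast (by omega : 0 ≤ a)
  have hb0 : (0 : ℝ) ≤ b := by exact_mod_cast (by omega : 0 ≤ b)
  have hx1 : 1 ≤ x := by linarith
  have hxx : x ≤ x ^ 2 := by nlinarith
  have hkJ : J ≠ 33 → k ≤ 179 := by
    intro h0
    have e1 := Int.le_of_dvd (abs_pos.2 (by omega : 33 - J ≠ 0)) ((dvd_abs k _).2 hkd)
    have e2 : |33 - J| ≤ 179 := by
      rw [abs_le]; constructor <;> omega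
    omega
  have haJ : J ≠ 89 → a ≤ 615 := by
    intro h0
    have e1 := Int.le_of_dvd (abs_pos.2 (by omega : 445 - 5 * J ≠ 0)) ((dvd_abs a _).2 had)
    have e2 : |445 - 5 * J| ≤ 615 := by
      rw [abs_le]; constructor <;> omega
    omega
  have hbJ : J ≠ 80 → b ≤ 132 := by
    intro h0
    have e1 := Int.le_of_dvd (abs_pos.2 (by omega : 80 - J ≠ 0)) ((dvd_abs b _).2 hbd)
    have e2 : |80 - J| ≤ 132 := by
      rw [abs_le]; constructor <;> omega
    omega
  by_cases c1 : J = 33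
  · have f1 : (a : ℝ) ≤ 615 := by exact_mod_cast haJ (by omega)
    have f2 : (b : ℝ) ≤ 132 := by exact_mod_cast hbJ (by omega)
    have := R_leR hk0 ha0 hb0 hkx f1 f2
    nlinarith
  by_cases c2 : J = 89
  · have f1 : (k : ℝ) ≤ 179 := by exact_mod_cast hkJ (by omega)
    have f2 : (b : ℝ) ≤ 132 := by exact_mod_cast hbJ (by omega)
    have := R_leR hk0 ha0 hb0 f1 hax f2
    have e1 : (179 : ℝ) * (550 * x * 132) ^ 2 = 943466040000 * x ^ 2 := by ring
    rw [e1] at this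
    nlinarith
  by_cases c3 : J = 80
  · have f1 : (k : ℝ) ≤ 179 := by exact_mod_cast hkJ (by omega)
    have f2 : (a : ℝ) ≤ 615 := by exact_mod_cast haJ (by omega)
    have := R_leR hk0 ha0 hb0 f1 f2 hbx
    have e1 : (179 : ℝ) * (615 * (100 * x)) ^ 2 = 677022750000 * x ^ 2 := by ring
    rw [e1] at this
    nlinarith
  · have f1 : (k : ℝ) ≤ 179 := by exact_mod_cast hkJ c1
    have f2 : (a : ℝ) ≤ 615 := by exact_mod_cast haJ c2
    have f3 : (b : ℝ) ≤ 132 := by exact_mod_cast hbJ c3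
    have := R_leR hk0 ha0 hb0 f1 f2 f3
    nlinarith

/-- Positive `Z`: everything. -/
theorem BD.main (D : BD u c k a b Z h a1 b7 x y z P Q w)
    (hA : P * z ^ 2 + 5 * z ≤ 37 ∧ z ≤ 0.01) (hB : Q < 1 / 10 ^ 4 → BB x y z P Q w) :
    c * u ≤ 10 ^ 60 := by
  rcases le_or_gt (1 / 10 ^ 4) Q with h | h
  · exact D.caseA hA.1 hA.2 h
  · exfalso
    have E := hB h
    rcases lt_trichotomy (11 * Z) (36 * u + 20 * Z - c * Z ^ 2) with h1 | h1 | h1
    · exact D.caseB1 E h1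
    · exact D.caseC1 E h1.symm
    · rcases lt_trichotomy (36 * u + 20 * Z - c * Z ^ 2) 0 with h2 | h2 | h2
      · exact D.caseC4 E h2
      · exact D.caseC3 E h2
      · exact D.caseC2 E h2 h1

end Pool.Agent.H132.EndPos
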