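import Mathlib

/-!
# Real inequalities for the endgame
-/

set_option autoImplicit false

namespace Pool.Agent.H132.RealA

/-- Case `x ≤ 1`. -/
lemma caseA {x ν z Q P n : ℝ} (hx0 : 0 < x) (hx1 : x ≤ 1) (hP : 1000 ≤ P) (hn : 100 ≤ n)
    (h1 : P = x ^ 2 + 2 * x + 4 + ν) (h2 : P * ν = x + 2 + z)
    (h3 : Q = 11 + 2 * ν + ν * x - (2 * x - 1) * z) (hQ : 0 < Q)
    (h4 : n * Q = (P - 1) * x * (2 * x + 1) ^ 2) :
    2 < (2 * x - 1) * P ∧ (2 * x - 1) * P < 3 := by
  have hν : P - 7 ≤ ν := by nlinarith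
  have hν0 : 0 < ν := by linarith
  have hQ2 : Q = 2 * x ^ 2 + 3 * x + 9 - ν * ((2 * x - 1) * P - x - 2) := by
    have : z = P * ν - x - 2 := by linarith
    rw [h3, this]; ring
  -- upper bound for `Q`
  have hx2 : x * (2 * x + 1) ^ 2 ≤ 9 := by
    have : (2 * x + 1) ^ 2 ≤ 9 := by nlinarith
    nlinarith
  have hQ3 : 100 * Q ≤ 9 * (P - 1) := by
    have e1 : 100 * Q ≤ n * Q := mul_le_mul_of_nonneg_right hn hQ.le
    have e2 : (P - 1) * (x * (2 * x + 1) ^ 2) ≤ (P - 1) * 9 :=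
      mul_le_mul_of_nonneg_left hx2 (by linarith)
    nlinarith
  have hlow : x + 1.9 ≤ (2 * x - 1) * P := by
    by_contra hcon
    push Not at hcon
    have e1 : (2 * x - 1) * P - x - 2 < -0.1 := by linarith
    have e2 : ν * ((2 * x - 1) * P - x - 2) < ν * (-0.1) := mul_lt_mul_of_pos_left e1 hν0
    have e3 : Q > 9 + 0.1 * ν := by nlinarith
    nlinarith
  have hx3 : 1 / 2 < x := by
    by_contra hcon
    push Not at hcon
    have : (2 * x - 1) * P ≤ 0 := mul_nonpos_of_nonpos_of_nonneg (by linarith) (by linarith)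
    linarith
  refine ⟨by linarith, ?_⟩
  have e1 : ν * ((2 * x - 1) * P - x - 2) < 14 := by nlinarith
  have e2 : (2 * x - 1) * P - x - 2 < 0.1 := by
    by_contra hcon
    push Not at hcon
    have : ν * 0.1 ≤ ν * ((2 * x - 1) * P - x - 2) := mul_le_mul_of_nonneg_left hcon hν0.le
    linarith
  have e3 : (2 * x - 1) * P < 3.1 := by linarith
  have e4 : 2 * x - 1 < 0.01 := by
    by_contra hcon
    push Not at hcon
    have : 0.01 * P ≤ (2 * x - 1) * P := mul_le_mul_of_nonneg_right hcon (by linarith)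
    linarith
  linarith

/-- In the second case `x` is large. -/
lemma caseB_large {x ν z Q P : ℝ} (hx1 : 1 < x) (hP : 1000 ≤ P) (hxP : x ^ 2 < P - 1)
    (h1 : P = x ^ 2 + 2 * x + 4 + ν) (h2 : P * ν = x + 2 + z)
    (h3 : Q = 11 + 2 * ν + ν * x - (2 * x - 1) * z) (hQ : 0 < Q) :
    P < x ^ 2 + 2 * x + 5 := by
  by_contra hcon
  push Not at hcon
  have hν : 1 ≤ ν := by linarith
  have hQ2 : Q = 2 * x ^ 2 + 3 * x + 9 - ν * ((2 * x - 1) * P - x - 2) := by
    have : z = P * ν - x - 2 := by linarith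
    rw [h3, this]; ring
  have e0 : x * P ≤ (2 * x - 1) * P := mul_le_mul_of_nonneg_right (by linarith) (by linarith)
  have e1 : x * 1000 ≤ x * P := mul_le_mul_of_nonneg_left hP (by linarith)
  have e1' : x * (x ^ 2 + 2 * x + 5) ≤ x * P := mul_le_mul_of_nonneg_left hcon (by linarith)
  have e2 : 0 ≤ (2 * x - 1) * P - x - 2 := by nlinarith
  have e3 : 1 * ((2 * x - 1) * P - x - 2) ≤ ν * ((2 * x - 1) * P - x - 2) :=
    mul_le_mul_of_nonneg_right hν e2
  rcases le_or_gt x 10 with h | h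
  · nlinarith
  · nlinarith

end Pool.Agent.H132.RealA
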