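import Mathlib

/-!
# Real inequalities for the endgame: negative `Z`
-/

set_option autoImplicit false
set_option linter.unusedVariables false

namespace Pool.Agent.H132.RealB

lemma nu_bound {x ν w P : ℝ} (hx : 1000 ≤ x) (hw : 0 < w) (hw2 : w < 2 * x + 5)
    (hxP : x ^ 2 < P - 1) (h2 : P * ν = x + 2 - w) : |ν| * x ≤ 1.01 := by
  have hP : 0 < P := by have := sq_nonneg x; linarith
  have h3 : |ν| * P ≤ x + 3 := by
    have : |ν| * P = |x + 2 - w| := by
      rw [← h2, abs_mul, abs_of_pos hP]; ring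
    rw [this, abs_le]; constructor <;> linarith
  have h4 : |ν| * x ^ 2 ≤ |ν| * P := mul_le_mul_of_nonneg_left (by linarith) (abs_nonneg _)
  have h5 : (|ν| * x) * x ≤ 1.01 * x := by
    have : (|ν| * x) * x = |ν| * x ^ 2 := by ring
    linarith
  exact le_of_mul_le_mul_right h5 (by linarith)

lemma B3a_fin {x ν w : ℝ} (hx : 1000 ≤ x) (hw : 0 < w) (hν1 : |ν| ≤ 0.0011)
    (hνx : |ν| * x ≤ 1.01)
    (h : 11 + 2 * ν + ν * x + (2 * x - 1) * w ≤ (w - 2 + ν) * (2 * x + 5 - w)) : False := by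
  have hνl := neg_le_of_abs_le hν1
  have hνu := le_of_abs_le hν1
  have h1 : |ν * x| ≤ 1.01 := by rw [abs_mul, abs_of_pos (by linarith : 0 < x)]; exact hνx
  have h2 := neg_le_of_abs_le h1
  have h3 := le_of_abs_le h1
  have h4 : -(0.0011 * w) ≤ ν * w := by
    have := mul_le_mul_of_nonneg_right hνl hw.le
    linarith
  nlinarith [sq_nonneg (w - 4)]

lemma B3a {x ν w g Q f P : ℝ} (hx : 1000 ≤ x) (hw : 0 < w) (h2 : P * ν = x + 2 - w)
    (h3 : Q = 11 + 2 * ν + ν * x + (2 * x - 1) * w) (hQ : 0 < Q) (hg : 0 < g) (hf : 1 ≤ f)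
    (h5 : f * Q = g * (2 * x + 5 - w)) (hxP : x ^ 2 < P - 1) (hr : g ≤ w - 2 + ν) : False := by
  have hpos : 0 < 2 * x + 5 - w := by
    have : 0 < g * (2 * x + 5 - w) := by rw [← h5]; positivity
    exact (mul_pos_iff_of_pos_left hg).1 this
  have hν := nu_bound hx hw (by linarith) hxP h2
  have hν1 : |ν| ≤ 0.0011 := by
    have h6 : |ν| * 1000 ≤ |ν| * x := mul_le_mul_of_nonneg_left hx (abs_nonneg _)
    linarith
  have e1 : 1 * Q ≤ f * Q := mul_le_mul_of_nonneg_right hf hQ.le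
  have e2 : g * (2 * x + 5 - w) ≤ (w - 2 + ν) * (2 * x + 5 - w) :=
    mul_le_mul_of_nonneg_right hr hpos.le
  exact B3a_fin hx hw hν1 hν (by rw [← h3]; linarith)

lemma B3b_last {x ν w : ℝ} (hw5 : 0.991 ≤ w) (hw1 : w < 1)
    (hν0 : 0 < ν) (hνu : ν ≤ 0.0011) (hνx1 : ν * x ≤ 1) (hνx2 : 0.998 ≤ ν * x)
    (star : 2 * (x * w) * (1 - w) = 7 * w + 4 * w ^ 2 - w ^ 3 - 22 + 18 * (ν * x) + 46 * ν -
      10 * (w * ν)) (h8 : (1 - w) * (4 + w) = 12 * ν) : False := by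
  have hw : 0 < w := by linarith
  have h9 : 24 * (ν * x) * w = (4 + w) * (7 * w + 4 * w ^ 2 - w ^ 3 - 22 + 18 * (ν * x) +
      46 * ν - 10 * (w * ν)) := by
    rw [← star]; linear_combination (-2 * x * w) * h8
  have t3 : w ^ 3 ≤ 1 := pow_le_one₀ hw.le hw1.le
  have hw6 : 0.98 ≤ w ^ 2 := by
    have : 0.991 * 0.991 ≤ w * w := mul_le_mul hw5 hw5 (by norm_num) hw.le
    linarith [sq w]
  have t8 : w * ν ≤ 1 * ν := mul_le_mul_of_nonneg_right hw1.le hν0.le
  have t5 : 5.5 ≤ 7 * w + 4 * w ^ 2 - w ^ 3 - 22 + 18 * (ν * x) + 46 * ν - 10 * (w * ν) := by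
    linarith
  have t6 : 4.9 * 5.5 ≤ (4 + w) * (7 * w + 4 * w ^ 2 - w ^ 3 - 22 + 18 * (ν * x) + 46 * ν -
      10 * (w * ν)) := by
    apply mul_le_mul (by linarith) t5 (by norm_num) (by linarith)
  have t7 : (ν * x) * w ≤ 1 * 1 := mul_le_mul hνx1 hw1.le hw.le (by norm_num)
  linarith


/-- `w < 1`. -/
lemma B3b_w1 {x ν w : ℝ} (hx : 1000 ≤ x) (hν0 : 0 < ν) (hν1 : ν ≤ 0.0011)
    (hνx : ν * x ≤ 1.01) (hw2 : w < 2.01)
    (h : 11 + 2 * ν + ν * x + (2 * x - 1) * w ≤ (2 - w - ν) * (2 * x + 5 - w)) : w < 1 := by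
  by_contra hcon
  push Not at hcon
  have e4 : (2 * x - 1) * 1 ≤ (2 * x - 1) * w := mul_le_mul_of_nonneg_left hcon (by linarith)
  have e5 : (2 - w - ν) * (2 * x + 5 - w) ≤ 1 * (2 * x + 4) :=
    mul_le_mul (by linarith) (by linarith) (by linarith) (by norm_num)
  have e6 : 0 ≤ ν * x := by positivity
  linarith

lemma B3b_g1 {x ν w : ℝ} (hx : 1000 ≤ x) (hw : 0 < w) (hw1 : w < 1) (hν0 : 0 < ν)
    (hν1 : ν ≤ 0.0011) (hνx1 : ν * x ≤ 1) (hνx2 : 0.998 ≤ ν * x) :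
    11 + 2 * ν + ν * x + (2 * x - 1) * w < (w + w ^ 2 + 10 * ν) * (2 * x + 5 - w) := by
  have t1 : 0 < x * w ^ 2 := by positivity
  have t2 : w ^ 3 ≤ w ^ 2 := by
    have : w ^ 3 = w * w ^ 2 := by ring
    rw [this]
    have : w * w ^ 2 ≤ 1 * w ^ 2 := mul_le_mul_of_nonneg_right hw1.le (sq_nonneg w)
    linarith
  have t3 : ν * w ≤ ν * 1 := mul_le_mul_of_nonneg_left hw1.le hν0.le
  have t4 : 0 < w ^ 2 := by positivity
  have e : (w + w ^ 2 + 10 * ν) * (2 * x + 5 - w) = 2 * x * w + 5 * w + 4 * w ^ 2 +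
      2 * (x * w ^ 2) - w ^ 3 + 20 * (ν * x) + 50 * ν - 10 * (ν * w) := by ring
  rw [e]
  linarith

lemma B3b_g2 {x ν w : ℝ} (hx : 1000 ≤ x) (hw : 0 < w) (hw1 : w < 1) (hν0 : 0 < ν)
    (hν1 : ν ≤ 0.0011) (hνx1 : ν * x ≤ 1) (hνx2 : 0.998 ≤ ν * x) :
    (w + w ^ 2 + 10 * ν) * (2 * x + 5 - w) < 3 * (11 + 2 * ν + ν * x + (2 * x - 1) * w) := by
  have t0 : w ^ 2 ≤ w := by
    have : w * w ≤ 1 * w := mul_le_mul_of_nonneg_right hw1.le hw.le
    linarith [sq w]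
  have t1 : x * w ^ 2 ≤ x * w := mul_le_mul_of_nonneg_left t0 (by linarith)
  have t2 : 0 < w ^ 3 := by positivity
  have t3 : 1000 * w ≤ x * w := mul_le_mul_of_nonneg_right hx hw.le
  have t4 : 0 < ν * w := by positivity
  have e : (w + w ^ 2 + 10 * ν) * (2 * x + 5 - w) = 2 * x * w + 5 * w + 4 * w ^ 2 +
      2 * (x * w ^ 2) - w ^ 3 + 20 * (ν * x) + 50 * ν - 10 * (ν * w) := by ring
  rw [e]
  linarith

lemma B3b_w5 {x ν w : ℝ} (hx : 1000 ≤ x) (hw : 0 < w) (hw1 : w < 1) (hν0 : 0 < ν)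
    (hν1 : ν ≤ 0.0011) (hνx1 : ν * x ≤ 1)
    (star : 2 * (x * w) * (1 - w) = 7 * w + 4 * w ^ 2 - w ^ 3 - 22 + 18 * (ν * x) + 46 * ν -
      10 * (w * ν)) : 0.991 ≤ w := by
  have t2 : 0 < w ^ 3 := by positivity
  have t4 : 0 < w * ν := by positivity
  have hw3 : 0.4 < w := by
    by_contra hcon
    push Not at hcon
    have h0 : 0 ≤ 2 * (x * w) * (1 - w) := by
      have : 0 ≤ 1 - w := by linarith
      positivity
    have h1 : w ^ 2 ≤ 0.4 * w := by
      have : w * w ≤ 0.4 * w := mul_le_mul_of_nonneg_right hcon hw.le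
      linarith [sq w]
    linarith
  have t0 : w ^ 2 ≤ w := by
    have : w * w ≤ 1 * w := mul_le_mul_of_nonneg_right hw1.le hw.le
    linarith [sq w]
  have hw4 : x * (1 - w) ≤ 9 := by
    have t3 : 2 * (x * w) * (1 - w) ≤ 7.1 := by
      rw [star]; linarith
    have t5 : 0.4 * (x * (1 - w)) ≤ w * (x * (1 - w)) := by
      apply mul_le_mul_of_nonneg_right hw3.le
      have : 0 ≤ 1 - w := by linarith
      positivity
    linarith
  have h5 : 1000 * (1 - w) ≤ x * (1 - w) := mul_le_mul_of_nonneg_right hx (by linarith)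
  linarith

lemma B3b {x ν w g Q P : ℝ} {f e r : ℤ} (hx : 1000 ≤ x) (hw : 0 < w)
    (h1 : P = x ^ 2 + 2 * x + 4 + ν) (h2 : P * ν = x + 2 - w)
    (h3 : Q = 11 + 2 * ν + ν * x + (2 * x - 1) * w) (hQ : 0 < Q) (hg : 0 < g) (hf : 1 ≤ f)
    (h5 : f * Q = g * (2 * x + 5 - w)) (hxP : x ^ 2 < P - 1) (hr : 1 ≤ r)
    (h6 : 2 - w - ν = r * g) (h7 : w + w ^ 2 + 10 * ν = e * g) : False := by
  have hfR : (1 : ℝ) ≤ f := by exact_mod_cast hf
  have hrR : (1 : ℝ) ≤ r := by exact_mod_cast hr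
  have hpos : 0 < 2 * x + 5 - w := by
    have : 0 < g * (2 * x + 5 - w) := by rw [← h5]; positivity
    exact (mul_pos_iff_of_pos_left hg).1 this
  have hν := nu_bound hx hw (by linarith) hxP h2
  have hP0 : 0 < P := by have := sq_nonneg x; linarith
  have hν1 : |ν| ≤ 0.0011 := by
    have h6 : |ν| * 1000 ≤ |ν| * x := mul_le_mul_of_nonneg_left hx (abs_nonneg _)
    linarith
  have hνl := neg_le_of_abs_le hν1
  have hνu := le_of_abs_le hν1
  have hgle : g ≤ 2 - w - ν := by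
    rw [h6]
    have : 1 * g ≤ r * g := mul_le_mul_of_nonneg_right hrR hg.le
    linarith
  have hw2 : w < 2.01 := by linarith
  have hν0 : 0 < ν := by
    have : 0 < P * ν := by rw [h2]; linarith
    exact (mul_pos_iff_of_pos_left hP0).1 this
  have hνx1' : ν * x ≤ 1.01 := by
    have := le_abs_self ν
    have h8 : ν * x ≤ |ν| * x := mul_le_mul_of_nonneg_right this (by linarith)
    linarith
  have e1 : 1 * Q ≤ f * Q := mul_le_mul_of_nonneg_right hfR hQ.le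
  have e2 : g * (2 * x + 5 - w) ≤ (2 - w - ν) * (2 * x + 5 - w) :=
    mul_le_mul_of_nonneg_right hgle hpos.le
  have hw1 : w < 1 := B3b_w1 hx hν0 hνu hνx1' hw2 (by rw [← h3]; linarith)
  have hP1 : P ≤ x ^ 2 + 2 * x + 5 := by linarith
  have hP2 : x ^ 2 + 2 * x ≤ P := by linarith
  have hνx1 : ν * x ≤ 1 := by
    have h8 : (ν * x) * (x + 2) ≤ 1 * (x + 2) := by
      have h9 : (x ^ 2 + 2 * x) * ν ≤ P * ν := mul_le_mul_of_nonneg_right hP2 hν0.le
      have h10 : (ν * x) * (x + 2) = (x ^ 2 + 2 * x) * ν := by ring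
      rw [h10]; linarith
    exact le_of_mul_le_mul_right h8 (by linarith)
  have hνx2 : 0.998 ≤ ν * x := by
    by_contra hcon
    push Not at hcon
    have h9 : P * ν ≤ (x ^ 2 + 2 * x + 5) * ν := mul_le_mul_of_nonneg_right hP1 hν0.le
    have h10 : (x ^ 2 + 2 * x + 5) * ν = (ν * x) * (x + 2) + 5 * ν := by ring
    have h11 : (ν * x) * (x + 2) ≤ 0.998 * (x + 2) :=
      mul_le_mul_of_nonneg_right hcon.le (by linarith)
    rw [h10] at h9
    linarith
  have hef : e * f * Q = (w + w ^ 2 + 10 * ν) * (2 * x + 5 - w) := by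
    rw [h7]; linear_combination e * h5
  have g1 := B3b_g1 hx hw hw1 hν0 hνu hνx1 hνx2
  have g2 := B3b_g2 hx hw hw1 hν0 hνu hνx1 hνx2
  rw [← h3, ← hef] at g1 g2
  have k1 : 1 < e * f := by
    by_contra hcon
    push Not at hcon
    have h8 : ((e * f : ℤ) : ℝ) ≤ 1 := by exact_mod_cast hcon
    push_cast at h8
    have := mul_le_mul_of_nonneg_right h8 hQ.le
    linarith
  have k2 : e * f < 3 := by
    by_contra hcon
    push Not at hcon
    have h8 : (3 : ℝ) ≤ ((e * f : ℤ) : ℝ) := by exact_mod_cast hcon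
    push_cast at h8
    have := mul_le_mul_of_nonneg_right h8 hQ.le
    linarith
  have k3 : e * f = 2 := by omega
  have k3R : (e : ℝ) * f = 2 := by exact_mod_cast k3
  rw [k3R] at hef
  have star : 2 * (x * w) * (1 - w) = 7 * w + 4 * w ^ 2 - w ^ 3 - 22 + 18 * (ν * x) + 46 * ν -
      10 * (w * ν) := by
    rw [h3] at hef
    linear_combination hef
  have hw5 := B3b_w5 hx hw hw1 hν0 hνu hνx1 star
  have he : 1 ≤ e := by
    by_contra hcon
    have : e * f ≤ 0 := mul_nonpos_of_nonpos_of_nonneg (by omega) (by omega)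
    omega
  have hcases : (e = 1 ∧ f = 2) ∨ (e = 2 ∧ f = 1) := by
    have e3 : e ≤ 2 := by
      by_contra hcon
      have : 3 * 1 ≤ e * f := mul_le_mul (by omega) hf (by norm_num) (by omega)
      omega
    have : e = 1 ∨ e = 2 := by omega
    rcases this with rfl | rfl
    · left; omega
    · right; omega
  have hw6 : 0.98 ≤ w ^ 2 := by
    have : 0.991 * 0.991 ≤ w * w := mul_le_mul hw5 hw5 (by norm_num) hw.le
    linarith [sq w]
  rcases hcases with ⟨rfl, rfl⟩ | ⟨rfl, rfl⟩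
  · push_cast at h7
    linarith
  · push_cast at h7
    have hr1 : r = 1 := by
      by_contra hcon
      have h10 : (2 : ℝ) ≤ r := by exact_mod_cast (by omega : 2 ≤ r)
      have h11 : 2 * g ≤ r * g := mul_le_mul_of_nonneg_right h10 hg.le
      linarith
    subst hr1
    push_cast at h6
    exact B3b_last hw5 hw1 hν0 hνu hνx1 hνx2 star (by linarith)

end Pool.Agent.H132.RealB
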