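import Mathlib

/-!
# Real inequalities for the endgame: positive `Z`
-/

set_option autoImplicit false

namespace Pool.Agent.H132.RealC

/-- The real data of the case `Z > 0`. -/
structure RD (x y ν z P Q w : ℝ) : Prop where
  hxy : x * y = 1
  hy : 0 < y
  hy2 : y ≤ 1 / 10 ^ 20
  hz : 0 < z
  hP : P = x ^ 2 + 2 * x + 4 + ν
  hPν : P * ν = x + 2 + z
  hQ : Q = 11 + 2 * ν + ν * x - (2 * x - 1) * z
  hQ0 : 0 < Q
  hP5 : P < x ^ 2 + 2 * x + 5
  hw : w = 36 + 20 * z - P * z ^ 2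

variable {x y ν z P Q w : ℝ}

lemma RD.xbig (h : RD x y ν z P Q w) : 10 ^ 20 ≤ x := by
  obtain ⟨hxy, hy, hy2, hz, hP, hPν, hQ, hQ0, hP5, hw⟩ := h
  by_contra hcon
  push Not at hcon
  have : x * y < 10 ^ 20 * y := mul_lt_mul_of_pos_right hcon hy
  have h2 : 10 ^ 20 * y ≤ 1 := by
    rw [le_div_iff₀ (by positivity)] at hy2; linarith
  linarith

/-- basic bounds. -/
lemma RD.basic (h : RD x y ν z P Q w) : 0 < ν ∧ ν * x ≤ 1 + y ∧ x * z < 6.0001 ∧ z ≤ 7 * y ∧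
    z < 1 / 10 ^ 6 := by
  have hx := h.xbig
  obtain ⟨hxy, hy, hy2, hz, hP, hPν, hQ, hQ0, hP5, hw⟩ := h
  have hx0 : 0 < x := by linarith
  have hPpos : 0 < P := by
    by_contra hcon
    push Not at hcon
    have h1 : 0 < P * ν := by rw [hPν]; linarith
    have hν : ν < 0 := by
      by_contra h2
      push Not at h2
      have : P * ν ≤ 0 := mul_nonpos_of_nonpos_of_nonneg hcon h2
      linarith
    have h3 : P * ν + 2 * x * ν + 4 * ν > 0 ∨ True := Or.inr trivial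
    -- `ν ≤ -(x^2+2x+4)`, then `Q < 0`
    have h4 : ν ≤ -(x ^ 2 + 2 * x + 4) := by linarith
    have h5 : ν * x ≤ -(x ^ 2 + 2 * x + 4) * x := mul_le_mul_of_nonneg_right h4 hx0.le
    have h6 : 0 < (2 * x - 1) * z := mul_pos (by linarith) hz
    nlinarith [pow_pos hx0 3]
  have hν : 0 < ν := by
    have h1 : 0 < P * ν := by rw [hPν]; linarith
    exact (mul_pos_iff_of_pos_left hPpos).1 h1
  have hν1 : ν < 1 := by linarith
  have hz1 : z < 1 := by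
    by_contra hcon
    push Not at hcon
    have h1 : (2 * x - 1) * 1 ≤ (2 * x - 1) * z := mul_le_mul_of_nonneg_left hcon (by linarith)
    have h2 : ν * x ≤ 1 * x := mul_le_mul_of_nonneg_right hν1.le hx0.le
    linarith
  have h1 : (x ^ 2 + 2 * x) * ν ≤ P * ν := mul_le_mul_of_nonneg_right (by linarith) hν.le
  have h2 : (ν * x) * (x + 2) ≤ (1 + y) * (x + 2) := by
    have e1 : (ν * x) * (x + 2) = (x ^ 2 + 2 * x) * ν := by ring
    have e2 : (1 + y) * (x + 2) = x + 2 + x * y + 2 * y := by ring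
    rw [e1, e2, hxy]; linarith
  have hνx : ν * x ≤ 1 + y := le_of_mul_le_mul_right h2 (by linarith)
  have hy3 : y ≤ 0.000001 := by
    refine hy2.trans ?_; norm_num
  have hν2 : ν ≤ 2 * y := by
    have e1 : ν = (ν * x) * y := by linear_combination (-ν) * hxy
    rw [e1]
    exact mul_le_mul_of_nonneg_right (by linarith) hy.le
  have h3 : (2 * x - 1) * z < 12.00001 := by linarith
  have hz2 : z < 7 * y := by
    have e1 : x * z ≤ (2 * x - 1) * z := mul_le_mul_of_nonneg_right (by linarith) hz.le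
    have e2 : z = (x * z) * y := by linear_combination (-z) * hxy
    have e3 : 0.5 * (3.9 * x * z) ≤ (2 * x - 1) * z := by
      have : 0.5 * (3.9 * x * z) = (1.95 * x) * z := by ring
      rw [this]
      exact mul_le_mul_of_nonneg_right (by linarith) hz.le
    have e4 : x * z < 7 := by linarith
    rw [e2]
    exact mul_lt_mul_of_pos_right e4 hy
  refine ⟨hν, hνx, ?_, hz2.le, ?_⟩
  · linarith
  · have : z < 7 * (1 / 10 ^ 20) := by linarith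
    refine this.trans ?_; norm_num

/-- The relations in terms of `ω = x z`, `α = ν x - 1`. -/
lemma RD.rel (h : RD x y ν z P Q w) :
    (ν * x - 1) * (1 + 2 * y + 4 * y ^ 2) =
      y ^ 2 * (x * z - 4) - y ^ 3 * (1 + (ν * x - 1)) ^ 2 ∧
    Q = 12 - 2 * (x * z) + (ν * x - 1) + (2 + 2 * (ν * x - 1) + x * z) * y ∧
    P * y ^ 2 = 1 + 2 * y + 4 * y ^ 2 + y ^ 3 * (ν * x) ∧
    w = 36 + 20 * (x * z) * y - (x * z) ^ 2 * (1 + 2 * y + 4 * y ^ 2 + y ^ 3 * (ν * x)) := by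
  obtain ⟨hxy, hy, hy2, hz, hP, hPν, hQ, hQ0, hP5, hw⟩ := h
  have hν : ν = (ν * x) * y := by linear_combination (-ν) * hxy
  have hz2 : z = (x * z) * y := by linear_combination (-z) * hxy
  have hx2 : x ^ 2 * y ^ 2 = 1 := by
    rw [← mul_pow, hxy, one_pow]
  have hPy : P * y ^ 2 = 1 + 2 * y + 4 * y ^ 2 + y ^ 3 * (ν * x) := by
    rw [hP]
    linear_combination hx2 + 2 * y * hxy + y ^ 2 * hν
  refine ⟨?_, ?_, hPy, ?_⟩
  · have h1 : P * y ^ 2 * (ν * x) = 1 + 2 * y + (x * z) * y ^ 2 := by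
      have : P * y ^ 2 * (ν * x) = (P * ν) * (x * y) * y := by ring
      rw [this, hPν, hxy]
      linear_combination hxy + y * hz2
    rw [hPy] at h1
    linear_combination h1
  · rw [hQ]
    linear_combination 2 * hν + hz2
  · have h1 : P * z ^ 2 = (P * y ^ 2) * (x * z) ^ 2 := by
      linear_combination (-P * z ^ 2) * hx2
    rw [hw, h1, hPy]
    linear_combination 20 * hz2

/-- The bounds on `α`. -/
lemma alpha_bounds {y ε α : ℝ} (hy : 0 < y) (hy2 : y ≤ 0.0001) (he : |ε| ≤ 0.001)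
    (ha : |α| ≤ 0.001)
    (h : α * (1 + 2 * y + 4 * y ^ 2) = y ^ 2 * (2 - ε) - y ^ 3 * (1 + α) ^ 2) :
    y ^ 2 * (2 - ε) - 5.1 * y ^ 3 ≤ α ∧ α ≤ y ^ 2 * (2 - ε) - 4.9 * y ^ 3 := by
  have he1 := neg_le_of_abs_le he
  have he2 := le_of_abs_le he
  have ha1 := neg_le_of_abs_le ha
  have ha2 := le_of_abs_le ha
  have hp : 0 < 1 + 2 * y + 4 * y ^ 2 := by positivity
  have hy3 : 0 < y ^ 3 := by positivity
  have hy22 : y ^ 2 ≤ 0.0001 * y := by nlinarith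
  have hεy : |ε * y| ≤ 0.001 * y := by
    rw [abs_mul, abs_of_pos hy]; exact mul_le_mul_of_nonneg_right he hy.le
  have hεy1 := neg_le_of_abs_le hεy
  have hεy2 := le_of_abs_le hεy
  have ha3 : (1 + α) ^ 2 ≤ 1.0021 := by nlinarith
  have ha4 : 0.998 ≤ (1 + α) ^ 2 := by nlinarith
  constructor
  · have h1 : (y ^ 2 * (2 - ε) - 5.1 * y ^ 3) * (1 + 2 * y + 4 * y ^ 2) ≤
        α * (1 + 2 * y + 4 * y ^ 2) := by
      rw [h]
      have h2 : 0 ≤ y ^ 3 * (5.1 * (1 + 2 * y + 4 * y ^ 2) - (1 + α) ^ 2 -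
          (2 - ε) * (2 + 4 * y)) := by
        apply mul_nonneg hy3.le
        nlinarith [sq_nonneg y]
      nlinarith
    exact le_of_mul_le_mul_right h1 hp
  · have h1 : α * (1 + 2 * y + 4 * y ^ 2) ≤
        (y ^ 2 * (2 - ε) - 4.9 * y ^ 3) * (1 + 2 * y + 4 * y ^ 2) := by
      rw [h]
      have h2 : 0 ≤ y ^ 3 * ((1 + α) ^ 2 + (2 - ε) * (2 + 4 * y) -
          4.9 * (1 + 2 * y + 4 * y ^ 2)) := by
        apply mul_nonneg hy3.le
        nlinarith [sq_nonneg y]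
      nlinarith
    exact le_of_mul_le_mul_right h1 hp


/-- upper bound for `w`. -/
lemma U_ineq {y ε α : ℝ} (hy : 0 < y) (hy2 : y ≤ 0.0001) (he : |ε| ≤ 0.001)
    (ha1 : y ^ 2 * (2 - ε) - 5.1 * y ^ 3 ≤ α) (ha2 : α ≤ y ^ 2 * (2 - ε) - 4.9 * y ^ 3) :
    12 * ε - ε ^ 2 + (48 + 4 * ε - 2 * ε ^ 2) * y - 4 * (6 - ε) ^ 2 * y ^ 2
      - (6 - ε) ^ 2 * (1 + α) * y ^ 3 ≤
    (6 + 10 * y) * (2 * ε + α + (8 - ε + 2 * α) * y) := by
  have he1 := neg_le_of_abs_le he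
  have he2 := le_of_abs_le he
  have hα1 : 1.9 * y ^ 2 ≤ α := by nlinarith [sq_nonneg y]
  have hα2 : α ≤ 2.1 * y ^ 2 := by nlinarith [sq_nonneg y, pow_pos hy 3]
  have hα0 : 0 ≤ α := by nlinarith [sq_nonneg y]
  have h1 : 0 ≤ (6 - ε) ^ 2 * (1 + α) * y ^ 3 := by positivity
  have h2 : 35 * y ^ 2 ≤ (6 - ε) ^ 2 * y ^ 2 :=
    mul_le_mul_of_nonneg_right (by nlinarith) (sq_nonneg y)
  have h3 : 0 ≤ α * y := by positivity
  have h4 : 0 ≤ ε ^ 2 * y := by positivity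
  have h5 : 0 ≤ α * y ^ 2 := by positivity
  have h6 : |ε * y ^ 2| ≤ 0.001 * y ^ 2 := by
    rw [abs_mul, abs_of_pos (by positivity : 0 < y ^ 2)]
    exact mul_le_mul_of_nonneg_right he (sq_nonneg y)
  have h61 := neg_le_of_abs_le h6
  have h62 := le_of_abs_le h6
  nlinarith [sq_nonneg (ε + 5 * y)]

/-- lower bound for `w`. -/
lemma L_ineq {y ε α : ℝ} (hy : 0 < y) (hy2 : y ≤ 0.0001) (he : |ε| ≤ 0.001)
    (ha1 : y ^ 2 * (2 - ε) - 5.1 * y ^ 3 ≤ α) (ha2 : α ≤ y ^ 2 * (2 - ε) - 4.9 * y ^ 3) :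
    0 ≤ 12 * ε - ε ^ 2 + (48 + 4 * ε - 2 * ε ^ 2) * y - 4 * (6 - ε) ^ 2 * y ^ 2
      - (6 - ε) ^ 2 * (1 + α) * y ^ 3 -
    6 * (2 * ε + α + (8 - ε + 2 * α) * y) + (2 * ε + α + (8 - ε + 2 * α) * y) ^ 2 +
      1000 * y ^ 2 := by
  have he1 := neg_le_of_abs_le he
  have he2 := le_of_abs_le he
  have hα1 : 1.9 * y ^ 2 ≤ α := by nlinarith [sq_nonneg y]
  have hα2 : α ≤ 2.1 * y ^ 2 := by nlinarith [sq_nonneg y, pow_pos hy 3]
  have hα0 : 0 ≤ α := by nlinarith [sq_nonneg y]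
  have hα3 : α ≤ 0.001 * y := by nlinarith
  have h1 : (6 - ε) ^ 2 * (1 + α) * y ^ 3 ≤ y ^ 2 := by
    have e1 : (6 - ε) ^ 2 ≤ 37 := by nlinarith
    have e2 : (6 - ε) ^ 2 * (1 + α) ≤ 37 * 2 := by
      apply mul_le_mul e1 (by linarith) (by linarith) (by norm_num)
    have e3 : (6 - ε) ^ 2 * (1 + α) * y ^ 3 ≤ 37 * 2 * y ^ 3 :=
      mul_le_mul_of_nonneg_right e2 (by positivity)
    have e4 : y ^ 3 ≤ 0.0001 * y ^ 2 := by nlinarith [sq_nonneg y]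
    linarith
  have h2 : (6 - ε) ^ 2 * y ^ 2 ≤ 37 * y ^ 2 :=
    mul_le_mul_of_nonneg_right (by nlinarith) (sq_nonneg y)
  have h3 : α * y ≤ 0.001 * y ^ 2 := by nlinarith
  have h4 : ε ^ 2 * y ≤ 0.001 * ε ^ 2 := by nlinarith [sq_nonneg ε]
  -- `Q = (2 ε + 8 y) + r`
  have hr : |α + (-ε + 2 * α) * y| ≤ 0.01 * y := by
    rw [abs_le]; constructor <;> nlinarith
  have h7 : (2 * ε + 8 * y) ^ 2 - 0.02 * y * |2 * ε + 8 * y| ≤
      (2 * ε + α + (8 - ε + 2 * α) * y) ^ 2 := by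
    have e1 : 2 * ε + α + (8 - ε + 2 * α) * y = (2 * ε + 8 * y) + (α + (-ε + 2 * α) * y) := by
      ring
    rw [e1]
    set r := α + (-ε + 2 * α) * y
    have e2 : |(2 * ε + 8 * y) * r| ≤ |2 * ε + 8 * y| * (0.01 * y) := by
      rw [abs_mul]; exact mul_le_mul_of_nonneg_left hr (abs_nonneg _)
    have e3 := neg_le_of_abs_le e2
    nlinarith [sq_nonneg r]
  have h8 : 0.02 * y * |2 * ε + 8 * y| ≤ 0.01 * (y ^ 2 + (2 * ε + 8 * y) ^ 2) := by
    have e1 : 0 ≤ (y - |2 * ε + 8 * y|) ^ 2 := sq_nonneg _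
    have e2 : |2 * ε + 8 * y| ^ 2 = (2 * ε + 8 * y) ^ 2 := sq_abs _
    nlinarith
  nlinarith [sq_nonneg (ε + 9 * y)]

/-- the crude lower bound for `w`. -/
lemma F'_ineq {y ε α : ℝ} (hy : 0 < y) (hy2 : y ≤ 0.0001) (he : |ε| ≤ 0.001)
    (ha1 : y ^ 2 * (2 - ε) - 5.1 * y ^ 3 ≤ α) (ha2 : α ≤ y ^ 2 * (2 - ε) - 4.9 * y ^ 3)
    (hQ : 0 < 2 * ε + α + (8 - ε + 2 * α) * y) :
    - 212.5 * y ^ 2 ≤ 12 * ε - ε ^ 2 + (48 + 4 * ε - 2 * ε ^ 2) * y - 4 * (6 - ε) ^ 2 * y ^ 2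
      - (6 - ε) ^ 2 * (1 + α) * y ^ 3 := by
  have he1 := neg_le_of_abs_le he
  have he2 := le_of_abs_le he
  have hα1 : 1.9 * y ^ 2 ≤ α := by nlinarith [sq_nonneg y]
  have hα2 : α ≤ 2.1 * y ^ 2 := by nlinarith [sq_nonneg y, pow_pos hy 3]
  have hα0 : 0 ≤ α := by nlinarith [sq_nonneg y]
  have h1 : (6 - ε) ^ 2 * (1 + α) * y ^ 3 ≤ 0.01 * y ^ 2 := by
    have e1 : (6 - ε) ^ 2 ≤ 37 := by nlinarith
    have e2 : (6 - ε) ^ 2 * (1 + α) ≤ 37 * 2 := by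
      apply mul_le_mul e1 (by nlinarith) (by linarith) (by norm_num)
    have e3 : (6 - ε) ^ 2 * (1 + α) * y ^ 3 ≤ 37 * 2 * y ^ 3 :=
      mul_le_mul_of_nonneg_right e2 (by positivity)
    have e4 : y ^ 3 ≤ 0.0001 * y ^ 2 := by nlinarith [sq_nonneg y]
    linarith
  rcases le_or_gt 0 ε with h | h
  · have h2 : (6 - ε) ^ 2 * y ^ 2 ≤ 36 * y ^ 2 :=
      mul_le_mul_of_nonneg_right (by nlinarith) (sq_nonneg y)
    have h3 : ε ^ 2 * y ≤ ε * y := by nlinarith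
    nlinarith
  · have hε4 : - (4.01 * y) ≤ ε := by nlinarith
    have h2 : (6 - ε) ^ 2 * y ^ 2 ≤ 36.013 * y ^ 2 :=
      mul_le_mul_of_nonneg_right (by nlinarith) (sq_nonneg y)
    have h5 : ε ^ 2 ≤ (4.01 * y) ^ 2 := by
      apply sq_le_sq'
      · linarith
      · linarith
    have h6 : ε ^ 2 * y ≤ 0.0001 * (4.01 * y) ^ 2 := by nlinarith
    have h7 : α * y ≤ 0.001 * y ^ 2 := by nlinarith
    nlinarith

/-- the fine inequality. -/
lemma F_ineq {y ε α : ℝ} (hy : 0 < y) (hy2 : y ≤ 0.0001) (he : |ε| ≤ 0.001)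
    (ha1 : y ^ 2 * (2 - ε) - 5.1 * y ^ 3 ≤ α) :
    12 * ε - ε ^ 2 + (48 + 4 * ε - 2 * ε ^ 2) * y - 4 * (6 - ε) ^ 2 * y ^ 2
      - (6 - ε) ^ 2 * (1 + α) * y ^ 3 + 212 * y ^ 2 + 300 * y ^ 3 ≤
    (6 + 9 * y) * (2 * ε + α + (8 - ε + 2 * α) * y) := by
  have he1 := neg_le_of_abs_le he
  have he2 := le_of_abs_le he
  have hA : 0 ≤ 6 + 21 * y + 18 * y ^ 2 + (6 - ε) ^ 2 * y ^ 3 := by positivity
  have h1 : (6 + 21 * y + 18 * y ^ 2 + (6 - ε) ^ 2 * y ^ 3) * (y ^ 2 * (2 - ε) - 5.1 * y ^ 3) ≤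
      (6 + 21 * y + 18 * y ^ 2 + (6 - ε) ^ 2 * y ^ 3) * α := mul_le_mul_of_nonneg_left ha1 hA
  set q := ε + 4 * y with hq
  have hεq : ε = q - 4 * y := by rw [hq]; ring
  have hq1 : -0.0014 ≤ q := by linarith
  have hq2 : q ≤ 0.0014 := by linarith
  have hT1 : 0 ≤ q ^ 2 * (2 * y + 4 * y ^ 2 + y ^ 3 + (14 - q) * y ^ 5 + 6.9 * y ^ 6) := by
    have : 0 ≤ 14 - q := by linarith
    positivity
  have hT2 : 0 ≤ y ^ 3 * (31.4 - 65 * q + (124.9 - 1560.25) * y - 26 * q * y + 68.2 * y ^ 2 -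
      60 * q * y ^ 2 + 56.4 * y ^ 3 - 50.8 * q * y ^ 3 - 20.8 * y ^ 4 - 7.2 * q * y ^ 4 -
      17.6 * y ^ 5) := by
    apply mul_nonneg (by positivity)
    have e1 : y ^ 4 ≤ 1 := pow_le_one₀ hy.le (by linarith)
    have e2 : y ^ 5 ≤ 1 * y := by
      have : y ^ 5 = y ^ 4 * y := by ring
      rw [this]; exact mul_le_mul_of_nonneg_right e1 hy.le
    have e3 : y ^ 4 ≤ 1 * y := by
      have : y ^ 4 = y ^ 3 * y := by ring
      rw [this]; exact mul_le_mul_of_nonneg_right (pow_le_one₀ hy.le (by linarith)) hy.le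
    have key : ∀ t : ℝ, 0 ≤ t → t ≤ 1 → q * t ≤ 0.0014 := by
      intro t ht0 ht1
      nlinarith
    have e4 := key y hy.le (by linarith)
    have e5 := key (y ^ 2) (by positivity) (pow_le_one₀ hy.le (by linarith))
    have e6 := key (y ^ 3) (by positivity) (pow_le_one₀ hy.le (by linarith))
    have e7 := key (y ^ 4) (by positivity) e1
    have e8 : 0 ≤ y ^ 2 := by positivity
    have e9 : 0 ≤ y ^ 3 := by positivity
    linarith
  have hT3 : 0 ≤ (q - 39.5 * y ^ 2) ^ 2 := sq_nonneg _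
  have hε : ε = q - 4 * y := hεq
  clear_value q
  subst hεq
  nlinarith


theorem RD.casea (h : RD x y ν z P Q w) : P * z ^ 2 + 5 * z ≤ 37 ∧ z ≤ 0.01 := by
  obtain ⟨h1, h2, h3, h4, h5⟩ := h.basic
  obtain ⟨r1, r2, r3, r4⟩ := h.rel
  have hy := h.hy
  have hy2 := h.hy2
  have hz := h.hz
  have hx := h.xbig
  have hy3 : y ≤ 0.000001 := by
    refine hy2.trans ?_; norm_num
  have hz3 : z < 0.000001 := by
    refine h5.trans_le ?_; norm_num
  have hPz : P * z ^ 2 = 36 + 20 * z - w := by rw [h.hw]; ring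
  have hz2 : z = (x * z) * y := by linear_combination (-z) * h.hxy
  have e1 : P * z ^ 2 = (x * z) ^ 2 * (1 + 2 * y + 4 * y ^ 2 + y ^ 3 * (ν * x)) := by
    rw [hPz, r4]; linear_combination 20 * hz2
  have e2 : (x * z) ^ 2 ≤ 36.01 := by
    have h0 : 0 ≤ x * z := mul_nonneg (by linarith) hz.le
    nlinarith
  have e3 : 1 + 2 * y + 4 * y ^ 2 + y ^ 3 * (ν * x) ≤ 1.001 := by
    have t1 : y ^ 2 ≤ 0.000001 := by nlinarith
    have t2 : y ^ 3 * (ν * x) ≤ 1 * (0.000002) := by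
      have : y ^ 3 ≤ 0.000001 := by
        have : y ^ 3 = y ^ 2 * y := by ring
        rw [this]
        nlinarith
      have t3 : y ^ 3 * (ν * x) ≤ y ^ 3 * 2 := mul_le_mul_of_nonneg_left (by linarith) (by positivity)
      linarith
    linarith
  have e4 : (x * z) ^ 2 * (1 + 2 * y + 4 * y ^ 2 + y ^ 3 * (ν * x)) ≤ 36.01 * 1.001 := by
    apply mul_le_mul e2 e3 _ (by norm_num)
    have : 0 ≤ ν * x := mul_nonneg h1.le (by linarith)
    positivity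
  rw [← e1] at e4
  constructor <;> linarith

theorem RD.caseb (h : RD x y ν z P Q w) (hQs : Q < 1 / 10 ^ 4) :
    5.99 < x * z ∧ w ≤ (6 + 10 * y) * Q ∧ 6 * Q ≤ w + Q ^ 2 + 1000 * y ^ 2 ∧
    w + 212 * y ^ 2 + 300 * y ^ 3 ≤ (6 + 9 * y) * Q ∧ - 212.5 * y ^ 2 ≤ w ∧
    x ^ 2 * (1 + 2 * y) ≤ P ∧ P * y ^ 2 ≤ 1 + 2.1 * y := by
  obtain ⟨h1, h2, h3, h4, h5⟩ := h.basic
  obtain ⟨r1, r2, r3, r4⟩ := h.rel
  have hy := h.hy
  have hy2 := h.hy2
  have hz := h.hz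
  have hx := h.xbig
  have hQ0 := h.hQ0
  have hy3 : y ≤ 0.000001 := by
    refine hy2.trans ?_; norm_num
  have hνx0 : 0 ≤ ν * x := mul_nonneg h1.le (by linarith)
  have hy22 : y ^ 2 ≤ 0.000001 * y := by nlinarith
  have hy33 : y ^ 3 ≤ 0.000001 * y := by
    have : y ^ 3 = y ^ 2 * y := by ring
    rw [this]; nlinarith
  have hy30 : 0 < y ^ 3 := by positivity
  have t1 : y ^ 3 * (ν * x) ≤ 2 * y ^ 3 := by nlinarith
  have t0 : 0 ≤ y ^ 3 * (ν * x) := by positivity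
  set α := ν * x - 1 with hα
  set ω := x * z with hω
  have hνα : ν * x = 1 + α := by rw [hα]; ring
  have hω0 : 0 < ω := by rw [hω]; exact mul_pos (by linarith) hz
  -- `|α| ≤ 0.001`
  have hα1 : -1 ≤ α := by linarith
  have hα2 : α ≤ 0.001 := by linarith
  have hα3 : -0.001 ≤ α := by
    have e1 : (1 + α) ^ 2 ≤ 2 := by nlinarith
    have e2 : y ^ 3 * (1 + α) ^ 2 ≤ 2 * y ^ 3 := by nlinarith
    have e3 : 0 ≤ ω * y ^ 2 := by positivity
    by_contra hcon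
    push Not at hcon
    have e4 : α * (1 + 2 * y + 4 * y ^ 2) ≤ -0.001 * (1 + 2 * y + 4 * y ^ 2) :=
      mul_le_mul_of_nonneg_right hcon.le (by positivity)
    nlinarith
  have hα' : |α| ≤ 0.001 := abs_le.2 ⟨hα3, hα2⟩
  set ε := 6 - ω with hε
  have hωε : ω = 6 - ε := by rw [hε]; ring
  have hαy : |α * y| ≤ 0.000001 := by
    rw [abs_mul, abs_of_pos hy]
    have : |α| * y ≤ 0.001 * 0.000001 := mul_le_mul hα' hy3 hy.le (by norm_num)
    linarith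
  have hαy1 := neg_le_of_abs_le hαy
  have hαy2 := le_of_abs_le hαy
  have hωy : ω * y ≤ 0.00001 := by
    have : ω * y ≤ 7 * 0.000001 := mul_le_mul (by linarith) hy3 hy.le (by norm_num)
    linarith
  have hωy0 : 0 ≤ ω * y := by positivity
  have he : |ε| ≤ 0.001 := by
    rw [abs_le]
    constructor <;> linarith
  have r1' : α * (1 + 2 * y + 4 * y ^ 2) = y ^ 2 * (2 - ε) - y ^ 3 * (1 + α) ^ 2 := by
    rw [r1, hωε]; ring
  obtain ⟨a1, a2⟩ := alpha_bounds hy (by linarith) he hα' r1'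
  have hQe : Q = 2 * ε + α + (8 - ε + 2 * α) * y := by
    rw [r2, hωε]; ring
  have hwe : w = 12 * ε - ε ^ 2 + (48 + 4 * ε - 2 * ε ^ 2) * y - 4 * (6 - ε) ^ 2 * y ^ 2
      - (6 - ε) ^ 2 * (1 + α) * y ^ 3 := by
    rw [r4, hωε, hνα]; ring
  have hU := U_ineq hy (by linarith) he a1 a2
  have hL := L_ineq hy (by linarith) he a1 a2
  have hF := F_ineq hy (by linarith) he a1
  have hF' := F'_ineq hy (by linarith) he a1 a2 (by rw [← hQe]; exact hQ0)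
  rw [← hQe, ← hwe] at hU hL hF
  rw [← hwe] at hF'
  refine ⟨?_, hU, by linarith, hF, hF', ?_, ?_⟩
  · have := le_of_abs_le he
    linarith
  · have e1 : x ^ 2 * (1 + 2 * y) = x ^ 2 + 2 * x := by
      linear_combination 2 * x * h.hxy
    rw [e1, h.hP]; linarith
  · rw [r3]; linarith

end Pool.Agent.H132.RealC
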