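import Pool.Agent.H132.EndPos4
import Pool.Agent.H132.RealA
import Pool.Agent.H132.RealB
import Pool.Agent.H132.RealC
import Pool.Agent.H132.Descent

/-!
# Endgame
-/

set_option autoImplicit false

namespace Pool.Agent.H132.Endgame

open Pool.Agent.H132.Descent

variable {f u v c k a b N Z : ℤ}

/-- Negative `Z`, `2 u ^ 2 + u Z = N`. -/
lemma r_zero (C : Core f u v c k a b N Z) (h : N = 2 * u ^ 2 + u * Z) (hZ : Z < 0) : False := by
  have hu := C.hu
  have hv := C.hv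
  have h1 : u ∣ v ^ 2 := by
    refine ⟨c * u ^ 2 - 2 * v - 6 * u - Z, ?_⟩
    linear_combination -C.F1 - h
  have h2 : IsUnit u := by
    have h3 : IsCoprime u (v ^ 2) := C.cuv.pow_right
    exact h3.isUnit_of_dvd' dvd_rfl h1
  have h3 : u = 1 := by
    rcases Int.isUnit_iff.1 h2 with h | h <;> omega
  subst h3
  have F1 := C.F1
  have F2 := C.F2
  have h4 : (c - 1) * N = v := by linear_combination F2 - h
  have hc := C.hc
  have hN : 1 ≤ N := by
    by_contra hcon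
    have : (c - 1) * N ≤ 0 := mul_nonpos_of_nonneg_of_nonpos (by omega) (by omega)
    omega
  have hZ1 : Z = -1 := by linarith
  have hN1 : N = 1 := by linarith
  rw [hN1] at h4 F1
  have : 0 < v ^ 2 := by positivity
  nlinarith

theorem endgame {n : ℤ} (C : Core f u v c k a b N Z) (hf : 1 ≤ f) (hn : 100 ≤ n)
    (hnk : n * (k * (a * b) ^ 2) = (c * u - 1) * (v * (2 * v + u) ^ 2)) : c * u ≤ 10 ^ 60 := by
  by_contra hcon
  push Not at hcon
  have hu := C.hu
  have hv := C.hv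
  have hc := C.hc
  have hk := C.hk
  have ha := C.ha
  have hb := C.hb
  have hu0 : (0 : ℝ) < u := by exact_mod_cast (by omega : 0 < u)
  have hv0 : (0 : ℝ) < v := by exact_mod_cast (by omega : 0 < v)
  have hk0 : (0 : ℝ) < k := by exact_mod_cast (by omega : 0 < k)
  have ha0 : (0 : ℝ) < a := by exact_mod_cast (by omega : 0 < a)
  have hb0 : (0 : ℝ) < b := by exact_mod_cast (by omega : 0 < b)
  have hune : (u : ℝ) ≠ 0 := hu0.ne'
  obtain ⟨x, hx⟩ : ∃ x : ℝ, x = v / u := ⟨_, rfl⟩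
  obtain ⟨ν, hν⟩ : ∃ ν : ℝ, ν = N / u ^ 2 := ⟨_, rfl⟩
  obtain ⟨z, hz⟩ : ∃ z : ℝ, z = Z / u := ⟨_, rfl⟩
  obtain ⟨P, hP⟩ : ∃ P : ℝ, P = c * u := ⟨_, rfl⟩
  obtain ⟨Q, hQ⟩ : ∃ Q : ℝ, Q = k * (a * b) ^ 2 / u ^ 3 := ⟨_, rfl⟩
  have F1 : (c : ℝ) * u ^ 3 = v ^ 2 + 2 * u * v + 4 * u ^ 2 + N := by exact_mod_cast C.F1
  have F2 : (c : ℝ) * N = v + 2 * u + Z := by exact_mod_cast C.F2
  have F3 : (k : ℝ) * (a * b) ^ 2 = 11 * u ^ 3 + 2 * u * N + v * N - u * (2 * v - u) * Z := by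
    exact_mod_cast C.F3
  have F5 : (k : ℝ) * f * (a * b) = 2 * v + 5 * u + Z := by exact_mod_cast C.F5
  have F7 : (0 : ℝ) < (c * u - 1) * u ^ 2 - v ^ 2 := by exact_mod_cast C.F7
  have hnkR : (n : ℝ) * (k * (a * b) ^ 2) = (c * u - 1) * (v * (2 * v + u) ^ 2) := by
    exact_mod_cast hnk
  have hPbig : (10 : ℝ) ^ 60 < P := by rw [hP]; exact_mod_cast hcon
  have hxu : x * u = v := by rw [hx]; field_simp
  have hνu : ν * u ^ 2 = N := by rw [hν]; field_simp
  have hzu : z * u = Z := by rw [hz]; field_simp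
  have hQu : Q * u ^ 3 = k * (a * b) ^ 2 := by rw [hQ]; field_simp
  have hx0 : 0 < x := by rw [hx]; positivity
  have hQ0 : 0 < Q := by rw [hQ]; positivity
  have h1 : P = x ^ 2 + 2 * x + 4 + ν := by
    apply mul_right_cancel₀ (pow_ne_zero 2 hune)
    rw [← hxu, ← hνu] at F1
    rw [hP]
    linear_combination F1
  have h2 : P * ν = x + 2 + z := by
    apply mul_right_cancel₀ hune
    rw [← hxu, ← hzu, ← hνu] at F2
    rw [hP]
    linear_combination F2
  have h3 : Q = 11 + 2 * ν + ν * x - (2 * x - 1) * z := by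
    apply mul_right_cancel₀ (pow_ne_zero 3 hune)
    rw [← hQu, ← hxu, ← hzu, ← hνu] at F3
    linear_combination F3
  have h7 : x ^ 2 < P - 1 := by
    rw [← hxu] at F7
    have e1 : (c * u - 1) * (u : ℝ) ^ 2 - (x * u) ^ 2 = (P - 1 - x ^ 2) * u ^ 2 := by
      rw [hP]; ring
    rw [e1] at F7
    have := (mul_pos_iff_of_pos_right (by positivity : (0 : ℝ) < (u : ℝ) ^ 2)).1 F7
    linarith
  rcases le_or_gt x 1 with hx1 | hx1
  · -- `x ≤ 1`
    have h4 : (n : ℝ) * Q = (P - 1) * x * (2 * x + 1) ^ 2 := by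
      apply mul_right_cancel₀ (pow_ne_zero 3 hune)
      rw [← hQu, ← hxu] at hnkR
      rw [hP]
      linear_combination hnkR
    have hP1000 : 1000 ≤ P := by
      have : (1000 : ℝ) ≤ 10 ^ 60 := by norm_num
      linarith
    obtain ⟨g1, g2⟩ := RealA.caseA hx0 hx1 hP1000 (by exact_mod_cast hn) h1 h2 h3 hQ0 h4
    have e1 : (2 * x - 1) * P = (((2 * v - u) * c : ℤ) : ℝ) := by
      push_cast
      rw [hP, ← hxu]; ring
    rw [e1] at g1 g2
    have g3 : 2 < (2 * v - u) * c := by exact_mod_cast g1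
    have g4 : (2 * v - u) * c < 3 := by exact_mod_cast g2
    omega
  -- `x > 1`
  have hP5 := RealA.caseB_large hx1 (by
    have : (1000 : ℝ) ≤ 10 ^ 60 := by norm_num
    linarith) h7 h1 h2 h3 hQ0
  have hx20 : (10 : ℝ) ^ 20 ≤ x := by
    by_contra hc2
    push Not at hc2
    have e1 : x ^ 2 ≤ (10 ^ 20) ^ 2 := pow_le_pow_left₀ hx0.le hc2.le 2
    have e2 : (10 : ℝ) ^ 60 < (10 ^ 20) ^ 2 + 2 * 10 ^ 20 + 5 := by linarith
    norm_num at e2
  have hx1000 : 1000 ≤ x := by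
    have : (1000 : ℝ) ≤ 10 ^ 20 := by norm_num
    linarith
  have huR : (1 : ℝ) ≤ u := by exact_mod_cast hu
  have hvbig : (10 : ℝ) ^ 20 ≤ v := by
    rw [← hxu]
    have : x * 1 ≤ x * u := mul_le_mul_of_nonneg_left huR hx0.le
    linarith
  have hvZ : (10 : ℤ) ^ 20 ≤ v := by exact_mod_cast hvbig
  rcases lt_trichotomy Z 0 with hZ | hZ | hZ
  · -- negative `Z`
    obtain ⟨g', hg'⟩ : ∃ g' : ℝ, g' = a * b / u ^ 2 := ⟨_, rfl⟩
    have hg0 : 0 < g' := by rw [hg']; positivity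
    have hgu : g' * u ^ 2 = a * b := by rw [hg']; field_simp
    obtain ⟨w, hw⟩ : ∃ w : ℝ, w = -z := ⟨_, rfl⟩
    have hw0 : 0 < w := by
      rw [hw, hz]
      have : (Z : ℝ) < 0 := by exact_mod_cast hZ
      have : (Z : ℝ) / u < 0 := div_neg_of_neg_of_pos this hu0
      linarith
    have hzw : z = -w := by rw [hw]; ring
    rw [hzw] at h2 h3 hzu
    have h3' : Q = 11 + 2 * ν + ν * x + (2 * x - 1) * w := by rw [h3]; ring
    have h2' : P * ν = x + 2 - w := by rw [h2]; ring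
    have h5 : (f : ℝ) * Q = g' * (2 * x + 5 - w) := by
      apply mul_right_cancel₀ (pow_ne_zero 3 hune)
      rw [← hxu, ← hzu] at F5
      have e1 : (f : ℝ) * Q * u ^ 3 = (k * f * (a * b)) * (a * b) := by
        rw [mul_assoc, hQu]; ring
      rw [e1, F5, ← hgu]; ring
    obtain ⟨r, hr⟩ := C.dG
    have hrR : 2 - w - ν = r * g' := by
      apply mul_right_cancel₀ (pow_ne_zero 2 hune)
      have e1 : (2 : ℝ) * u ^ 2 + u * Z - N = a * b * r := by exact_mod_cast hr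
      rw [← hzu, ← hνu, ← hgu] at e1
      linear_combination e1
    rcases lt_trichotomy r 0 with hr0 | hr0 | hr0
    · have e1 : (r : ℝ) ≤ -1 := by exact_mod_cast (by omega : r ≤ -1)
      have e2 : (r : ℝ) * g' ≤ -1 * g' := mul_le_mul_of_nonneg_right e1 hg0.le
      exact RealB.B3a hx1000 hw0 h2' h3' hQ0 hg0 (by exact_mod_cast hf : (1 : ℝ) ≤ f) h5 h7
        (by linarith)
    · rw [hr0] at hr
      exact r_zero C (by linarith) hZ
    · -- `e`
      obtain ⟨a', ha'⟩ := C.da1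
      obtain ⟨b', hb'⟩ := C.db1
      have hA3 : -(u * Z) + Z ^ 2 + 10 * N = (a * b) * (a' * b' - 10 * r) := by
        have e1 : (5 * u + Z) * (4 * u + Z) = (a * b) * (a' * b') := by rw [ha', hb']; ring
        linear_combination e1 - 10 * hr
      have h6 : w + w ^ 2 + 10 * ν = ((a' * b' - 10 * r : ℤ) : ℝ) * g' := by
        apply mul_right_cancel₀ (pow_ne_zero 2 hune)
        have e1 : -((u : ℝ) * Z) + Z ^ 2 + 10 * N = (a * b) * (((a' * b' - 10 * r : ℤ) : ℝ)) := by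
          exact_mod_cast hA3
        rw [← hzu, ← hνu, ← hgu] at e1
        linear_combination e1
      exact RealB.B3b hx1000 hw0 h1 h2' h3' hQ0 hg0 hf h5 h7 (by omega) hrR h6
  · -- `Z = 0`
    subst hZ
    have ha5 : a ≤ 5 := Int.le_of_dvd (by norm_num) (by simpa using C.da2)
    have hb5 : b ≤ 5 := Int.le_of_dvd (by norm_num) (by simpa using C.db2)
    have hk3 : k ≤ 3 := Int.le_of_dvd (by norm_num) (by simpa using C.dk2)
    have hR := EndPos.R_le hk ha hb hk3 ha5 hb5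
    have hN : 1 ≤ N := by
      by_contra hc2
      have e1 : c * N ≤ 0 := mul_nonpos_of_nonneg_of_nonpos (by omega) (by omega)
      have := C.F2
      omega
    have e2 := C.F3
    have e3 : v ≤ v * N := by nlinarith
    have e4 : 0 < 11 * u ^ 3 + 2 * u * N := by positivity
    have e5 : v ≤ k * (a * b) ^ 2 := by rw [e2]; linarith
    norm_num at hR hvZ
    omega
  · -- positive `Z`
    have hz0 : 0 < z := by
      rw [hz]
      have : (0 : ℝ) < Z := by exact_mod_cast hZ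
      positivity
    obtain ⟨y, hy⟩ : ∃ y : ℝ, y = 1 / x := ⟨_, rfl⟩
    have hxy : x * y = 1 := by rw [hy]; field_simp
    have hy0 : 0 < y := by rw [hy]; positivity
    have hy2 : y ≤ 1 / 10 ^ 20 := by
      rw [hy]
      exact one_div_le_one_div_of_le (by positivity) hx20
    obtain ⟨w, hw⟩ : ∃ w : ℝ, w = 36 + 20 * z - P * z ^ 2 := ⟨_, rfl⟩
    have D : RealC.RD x y ν z P Q w := ⟨hxy, hy0, hy2, hz0, h1, h2, h3, hQ0, hP5, hw⟩
    -- integers
    obtain ⟨hh, hhe⟩ : a * b ∣ c * Z + 5 := C.cab.mul_dvd C.da2 C.db2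
    obtain ⟨a1, ha1⟩ := C.dk1
    obtain ⟨b7, hb7⟩ := C.dk2
    have hh1 : 1 ≤ hh := by
      by_contra hc2
      have e1 : a * b * hh ≤ 0 := mul_nonpos_of_nonneg_of_nonpos (by positivity) (by omega)
      have e2 : 0 < c * Z + 5 := by positivity
      omega
    have ha11 : 1 ≤ a1 := by
      by_contra hc2
      have e1 : k * a1 ≤ 0 := mul_nonpos_of_nonneg_of_nonpos (by omega) (by omega)
      omega
    obtain ⟨b1, b2, b3, b4, b5⟩ := D.basic
    have hz6 : z ≤ 6.0001 * y := by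
      have e1 : z = (x * z) * y := by linear_combination (-z) * hxy
      rw [e1]
      exact mul_le_mul_of_nonneg_right b3.le hy0.le
    have hwu : w * u = 36 * u + 20 * Z - c * Z ^ 2 := by
      rw [hw, hP, ← hzu]; ring
    have BDd : EndPos.BD u c k a b Z hh a1 b7 x y z P Q w :=
      ⟨hu, hc, hk, ha, hb, by omega, hh1, ha11, ha1.symm, hb7.symm, hhe.symm, C.cku, C.cau, C.cbu,
        C.da1, C.db1, hzu, hP, hQu, hwu, hxy, hy0, hx20, hz0, hQ0, hz6⟩
    have := BDd.main D.casea (by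
      intro hQs
      obtain ⟨c1, c2, c3, c4, c5, c6, c7⟩ := D.caseb hQs
      refine ⟨?_, c2, c3, c4, c5, c6, c7, hQs⟩
      have e1 : z = (x * z) * y := by linear_combination (-z) * hxy
      rw [e1]
      exact mul_lt_mul_of_pos_right c1 hy0)
    omega

end Pool.Agent.H132.Endgame
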