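import Pool.Agent.H132.Endgame
import Pool.Agent.H132.CurveA

/-!
# The bound for `m`
-/

set_option autoImplicit false

namespace Pool.Agent.H132.Final

open Pool.Agent.H132.Descent

lemma small_n {s t g d f : ℤ} (S : Sys s t g d f) (hn : g * t ≤ 99) (hm : 3 ≤ g * s + 1) :
    g * s + 1 ≤ 98 * 97 := by
  obtain ⟨hs, ht, hg, hd, hf, co, e1, e2⟩ := S
  have hn1 : 1 ≤ g * t := by
    have : 0 < g * t := by positivity
    omega
  have hdvd : g * s + 1 ∣ (g * t - 1) * (g * t - 2) := by
    refine ⟨g ^ 2 * d - (2 * (g * s) + 3 * (g * t) - 2), ?_⟩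
    linear_combination (-g ^ 2) * e1
  rcases le_or_gt 3 (g * t) with h3 | h3
  · have h4 : 0 < (g * t - 1) * (g * t - 2) := mul_pos (by omega) (by omega)
    have h5 := Int.le_of_dvd h4 hdvd
    have h6 : (g * t - 1) * (g * t - 2) ≤ 98 * 97 :=
      mul_le_mul (by omega) (by omega) (by omega) (by norm_num)
    linarith
  · exfalso
    have hg2 : g ≤ 2 := by nlinarith
    have ht2 : t ≤ 2 := by nlinarith
    have hcases : (g = 1 ∧ t = 1) ∨ (g = 2 ∧ t = 1) ∨ (g = 1 ∧ t = 2) := by
      have h1 : g = 1 ∨ g = 2 := by omega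
      have h2 : t = 1 ∨ t = 2 := by omega
      rcases h1 with rfl | rfl <;> rcases h2 with rfl | rfl <;> omega
    rcases hcases with ⟨rfl, rfl⟩ | ⟨rfl, rfl⟩ | ⟨rfl, rfl⟩
    · have hd' : d = 2 * s + 1 := by
        apply mul_left_cancel₀ (by omega : s + 1 ≠ 0)
        linear_combination e1
      subst hd'
      have h5 : 2 * s + 1 ∣ 3 := ⟨2 * s - 1 - 4 * (f + 1), by linear_combination -4 * e2⟩
      have := Int.le_of_dvd (by norm_num) h5
      omega
    · have hd' : d = s + 1 := by
        apply mul_left_cancel₀ (by omega : 2 * s + 1 ≠ 0)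
        linear_combination e1
      subst hd'
      have h5 : 2 * s + 1 ∣ 3 := ⟨2 * s + 1 - 2 * (f + 2), by linear_combination -2 * e2⟩
      have h6 := Int.le_of_dvd (by norm_num) h5
      have h7 : s = 1 := by omega
      subst h7
      omega
    · have hd' : d = 2 * (s + 2) := by
        apply mul_left_cancel₀ (by omega : s + 1 ≠ 0)
        linear_combination e1
      subst hd'
      rcases Int.even_or_odd' s with ⟨r, hr | hr⟩
      · subst hr
        have h8 : 4 * (r * (r + 1)) = 2 + 4 * ((f + 1) * (2 * r + 1)) := by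
          linear_combination e2
        omega
      · subst hr
        have h8 : 2 * (2 * r ^ 2 + 4 * r + 1) + 1 = 2 * (1 + 4 * (f + 1) * (r + 1)) := by
          linear_combination e2
        omega

/-- The bound for `m`. -/
theorem m_bound {m θ lam y : ℤ} (hm : 3 ≤ m) (hmy : m ≤ y)
    (hn : 1 ≤ θ - m + 2)
    (h1 : (y - 1) * (m + θ) = (m - 1) * (lam - 1))
    (h2 : lam * m * (θ - m + 2) = (m - 1) * θ * (θ + 1)) :
    m ≤ (10 ^ 60) ^ 7 := by
  obtain ⟨s, t, g, d, f, S, hms, hnt, hy⟩ := reduce hm hmy hn h1 h2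
  have hs := S.hs
  have ht := S.ht
  have hg := S.hg
  have hf := S.hf
  rcases eq_or_lt_of_le hf with hf0 | hf1
  · -- `f = 0`
    rw [← hf0, mul_zero, add_zero] at hy
    subst hy
    have hlam : lam = 1 + y + θ := by
      apply mul_left_cancel₀ (by omega : y - 1 ≠ 0)
      linear_combination -h1
    subst hlam
    have h3 : (2 * θ + 2 * y + 1) ^ 2 = 4 * y ^ 3 - 4 * y + 1 := by
      linear_combination 4 * h2
    have := CurveA.bound (by omega) h3
    norm_num
    omega
  · rcases le_or_gt (g * t) 99 with hn99 | hn100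
    · have := small_n S hn99 (by omega)
      norm_num
      omega
    · obtain ⟨u, v, c, k, a, b, N, Z, C, r1, r2, r3⟩ := descent S
      have hu := C.hu
      have hv := C.hv
      have hk := C.hk
      have ha := C.ha
      have hb := C.hb
      have hc := C.hc
      have hP := Endgame.endgame (n := g * t) C (by omega) (by omega) (by
        calc g * t * (k * (a * b) ^ 2) = (k * g * (a * b)) * (t * (a * b)) := by ring
          _ = _ := by rw [r3, r2]; ring)
      obtain ⟨P0, hP0⟩ : ∃ P0 : ℤ, P0 = 10 ^ 60 := ⟨_, rfl⟩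
      rw [← hP0] at hP
      have hP01 : 1 ≤ P0 := by rw [hP0]; norm_num
      have huP : u ≤ P0 := by
        have : 1 * u ≤ c * u := mul_le_mul_of_nonneg_right hc (by omega)
        linarith
      have hab : 1 ≤ a * b := by
        have : 0 < a * b := by positivity
        omega
      have hcu : 0 ≤ c * u - 1 := by
        have : 0 < c * u := by positivity
        omega
      have hu2 : u ^ 2 ≤ P0 ^ 2 := pow_le_pow_left₀ (by omega) huP 2
      have hcu2 : (c * u - 1) * u ^ 2 ≤ P0 * P0 ^ 2 :=
        mul_le_mul (by omega) hu2 (by positivity) (by omega)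
      have hvP : v ≤ P0 ^ 2 := by
        by_contra hcon
        have h3 : P0 ^ 2 < v := by omega
        have h4 : (P0 ^ 2) ^ 2 < v ^ 2 := pow_lt_pow_left₀ h3 (by positivity) (by norm_num)
        have h5 := C.F7
        have h6 : P0 * P0 ^ 2 ≤ (P0 ^ 2) ^ 2 := by
          have : P0 ^ 3 * 1 ≤ P0 ^ 3 * P0 := mul_le_mul_of_nonneg_left hP01 (by positivity)
          nlinarith
        omega
      have hsP : s ≤ P0 * P0 ^ 2 := by
        have h3 : s * 1 ≤ s * (a * b) := mul_le_mul_of_nonneg_left hab (by omega)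
        rw [r1] at h3
        have : 0 ≤ v ^ 2 := sq_nonneg v
        omega
      have hgP : g ≤ P0 * (2 * P0 ^ 2 + P0) := by
        have h3 : g * 1 ≤ g * (k * (a * b)) := by
          apply mul_le_mul_of_nonneg_left _ (by omega)
          have : 0 < k * (a * b) := by positivity
          omega
        have h4 : g * (k * (a * b)) = (c * u - 1) * (2 * v + u) := by rw [← r3]; ring
        rw [h4] at h3
        have h5 : (c * u - 1) * (2 * v + u) ≤ P0 * (2 * P0 ^ 2 + P0) :=
          mul_le_mul (by omega) (by omega) (by omega) (by omega)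
        omega
      have hgs : g * s ≤ (P0 * (2 * P0 ^ 2 + P0)) * (P0 * P0 ^ 2) :=
        mul_le_mul hgP hsP (by omega) (by positivity)
      rw [hms]
      have h9 : (P0 * (2 * P0 ^ 2 + P0)) * (P0 * P0 ^ 2) + 1 ≤ P0 ^ 7 := by
        have h10 : 4 ≤ P0 := by rw [hP0]; norm_num
        have h11 : 4 * P0 ^ 6 ≤ P0 * P0 ^ 6 := mul_le_mul_of_nonneg_right h10 (by positivity)
        have h12 : 1 * P0 ^ 5 ≤ P0 * P0 ^ 5 := mul_le_mul_of_nonneg_right hP01 (by positivity)
        have h13 : 1 ≤ P0 ^ 6 := one_le_pow₀ hP01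
        have h14 : P0 * P0 ^ 6 = P0 ^ 7 := by ring
        have h15 : P0 * P0 ^ 5 = P0 ^ 6 := by ring
        have h16 : (P0 * (2 * P0 ^ 2 + P0)) * (P0 * P0 ^ 2) = 2 * P0 ^ 6 + P0 ^ 5 := by ring
        rw [h14] at h11
        rw [h15] at h12
        rw [h16]
        linarith
      rw [hP0] at hgs h9
      linarith

end Pool.Agent.H132.Final
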